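import Pool.Agent.MP_6fb7ad_al.Def

/-!
# MP_6fb7ad_al [OR-A1]: locally constant functions on compact groups; finite discrete groups
-/

set_option autoImplicit false

namespace Pool.Agent.MP_6fb7ad_al

section

variable {G : Type} [Group G] [TopologicalSpace G] [IsTopologicalGroup G]

/-- Let `W = {w | ∀ g h, φ (g * w * h) = φ (g * h)}`. It is a subgroup (for the inverse apply the
condition to `g * w⁻¹`), normal (apply it to `g * k`, `k⁻¹ * h`), and open: the set of all
`((g, h), w)` with `φ (g * w * h) ≠ φ (g * h)` is closed in `(G × G) × G`, and its projection to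
the last factor is closed since `G × G` is compact (`isClosedMap_snd_of_compactSpace`). -/
theorem exists_open_normal [CompactSpace G] {Z : Type} (φ : G → Z) (hφ : IsLocallyConstant φ) :
    ∃ W : Subgroup G, W.Normal ∧ IsOpen (W : Set G) ∧ ∀ w ∈ W, ∀ g h, φ (g * w * h) = φ (g * h) := by
  let W : Subgroup G :=
    { carrier := {w | ∀ g h, φ (g * w * h) = φ (g * h)}
      one_mem' := fun g h => by rw [mul_one]
      mul_mem' := by
        intro a b ha hb g h
        have e : g * (a * b) * h = (g * a) * b * h := by group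
        rw [e, hb (g * a) h]
        exact ha g h
      inv_mem' := by
        intro a ha g h
        have h1 := ha (g * a⁻¹) h
        rw [inv_mul_cancel_right] at h1
        exact h1.symm }
  have hW : ∀ w, w ∈ W ↔ ∀ g h, φ (g * w * h) = φ (g * h) := fun w => Iff.rfl
  refine ⟨W, ⟨?_⟩, ?_, fun w hw => hw⟩
  · intro w hw k g h
    have e : g * (k * w * k⁻¹) * h = (g * k) * w * (k⁻¹ * h) := by group
    have e' : g * h = (g * k) * (k⁻¹ * h) := by group
    rw [e, e']
    exact hw (g * k) (k⁻¹ * h)
  · have h1 : IsLocallyConstant (fun x : (G × G) × G => φ (x.1.1 * x.2 * x.1.2)) :=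
      hφ.comp_continuous (f := fun x : (G × G) × G => x.1.1 * x.2 * x.1.2) (by fun_prop)
    have h2 : IsLocallyConstant (fun x : (G × G) × G => φ (x.1.1 * x.1.2)) :=
      hφ.comp_continuous (f := fun x : (G × G) × G => x.1.1 * x.1.2) (by fun_prop)
    have h3 := h1.prodMk h2
    have h4 : IsClosed ((fun x : (G × G) × G =>
        (φ (x.1.1 * x.2 * x.1.2), φ (x.1.1 * x.1.2))) ⁻¹' {q | q.1 ≠ q.2}) := by
      rw [← isOpen_compl_iff, ← Set.preimage_compl]
      exact h3 _
    have h5 := isClosedMap_snd_of_compactSpace _ h4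
    rw [← isClosed_compl_iff]
    convert h5 using 1
    ext w
    constructor
    · intro hw
      have hw' : ¬ ∀ g h, φ (g * w * h) = φ (g * h) := hw
      push Not at hw'
      obtain ⟨g, h, hgh⟩ := hw'
      exact ⟨((g, h), w), hgh, rfl⟩
    · rintro ⟨⟨⟨g, h⟩, w'⟩, hgh, rfl⟩ hw
      exact hgh (hw g h)

/-- Apply `exists_open_normal` to the group `G × G` and the function `x ↦ f x.1 x.2`; intersect the
preimages of the open normal subgroup under `w ↦ (w, 1)` and `w ↦ (1, w)`. -/
theorem Z2_inv {p : ℕ} [CompactSpace G] (f : ↥(Z2 p G)) :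
    ∃ W : Subgroup G, W.Normal ∧ IsOpen (W : Set G) ∧
      ∀ w ∈ W, ∀ w' ∈ W, ∀ g h, f.1 (g * w) (h * w') = f.1 g h := by
  obtain ⟨W0, hN, hO, hW0⟩ := exists_open_normal (fun x : G × G => f.1 x.1 x.2) f.2.1
  have hcl : Continuous (MonoidHom.inl G G) := by
    have : (MonoidHom.inl G G : G → G × G) = fun x => (x, 1) := rfl
    rw [this]
    fun_prop
  have hcr : Continuous (MonoidHom.inr G G) := by
    have : (MonoidHom.inr G G : G → G × G) = fun x => (1, x) := rfl
    rw [this]
    fun_prop
  refine ⟨W0.comap (MonoidHom.inl G G) ⊓ W0.comap (MonoidHom.inr G G), inferInstance, ?_, ?_⟩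
  · exact (hO.preimage hcl).inter (hO.preimage hcr)
  · intro w hw w' hw' g h
    have h1 : ((w, 1) : G × G) ∈ W0 := hw.1
    have h2 : ((1, w') : G × G) ∈ W0 := hw'.2
    have h3 : ((w, w') : G × G) ∈ W0 := by
      have := W0.mul_mem h1 h2
      simpa using this
    have h4 := hW0 _ h3 (g, h) 1
    simpa using h4

/-- In a pro-`p` group (any compact totally disconnected group) the open normal subgroups form a
neighbourhood base at `1`. Mathlib has this for open subgroups
(`IsTopologicalGroup.exist_openSubgroup_sub_clopen_nhds_of_one`) and, for `ProfiniteGrp`,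
for open normal subgroups
(`ProfiniteGrp.exist_openNormalSubgroup_sub_open_nhds_of_one` or similar). Alternatively take a
clopen neighbourhood `A ⊆ V` of `1` (`compact_exists_isClopen_in_isOpen`) and apply
`exists_open_normal` to its indicator function `g ↦ decide (g ∈ A)` (with `g = h = 1`). -/
theorem exists_normal_le {p : ℕ} (hG : IsProP p G) (V : Set G) (hV : IsOpen V) (h1 : (1 : G) ∈ V) :
    ∃ W : Subgroup G, W.Normal ∧ IsOpen (W : Set G) ∧ (W : Set G) ⊆ V := by
  have := hG.compact
  have := hG.t2
  have := hG.td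
  obtain ⟨A, hA, h1A, hAV⟩ := compact_exists_isClopen_in_isOpen hV h1
  have hlc : IsLocallyConstant (fun g : G => g ∈ A) := by
    rw [IsLocallyConstant.iff_eventually_eq]
    intro x
    by_cases hx : x ∈ A
    · filter_upwards [hA.isOpen.mem_nhds hx] with y hy
      exact propext ⟨fun _ => hx, fun _ => hy⟩
    · filter_upwards [hA.compl.isOpen.mem_nhds hx] with y hy
      exact propext ⟨fun h => absurd h hy, fun h => absurd h hx⟩
  obtain ⟨W, hN, hO, hW⟩ := exists_open_normal (fun g : G => g ∈ A) hlc
  refine ⟨W, hN, hO, fun w hw => hAV ?_⟩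
  have h2 := hW w hw 1 1
  simp only [one_mul, mul_one] at h2
  rw [h2]
  exact h1A

/-- The family converges to `1` as soon as the condition holds for the open normal subgroups. -/
theorem convOne_of_normal {p : ℕ} (hG : IsProP p G) {X : Type} (f : X → G)
    (hf : ∀ N : Subgroup G, N.Normal → IsOpen (N : Set G) → {x | f x ∉ N}.Finite) : ConvOne f := by
  intro N hN
  obtain ⟨W, h1, h2, h3⟩ := exists_normal_le hG (N : Set G) hN N.one_mem
  exact (hf W h1 h2).subset fun x hx hxW => hx (h3 hxW)

end

/-- A finite discrete `p`-group is a pro-`p` group. -/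
theorem isProP_of_finite {p : ℕ} [Fact p.Prime] {P : Type} [Group P] [Finite P]
    [TopologicalSpace P] [DiscreteTopology P] [IsTopologicalGroup P] (hP : IsPGroup p P) :
    IsProP p P := by
  refine ⟨inferInstance, inferInstance, inferInstance, fun N _ _ => ?_⟩
  obtain ⟨k, hk⟩ := IsPGroup.iff_card.1 hP
  obtain ⟨m, -, hm⟩ := (Nat.dvd_prime_pow (Fact.out : p.Prime)).1 (hk ▸ N.index_dvd_card)
  exact ⟨m, hm⟩

/-- A family in a discrete group with finite support converges to `1`. -/
theorem convOne_of_finite {X P : Type} [Group P] [TopologicalSpace P] (f : X → P)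
    (hf : {x | f x ≠ 1}.Finite) : ConvOne f := by
  intro N _
  refine hf.subset fun x hx h => hx ?_
  simp only [h, N.one_mem]

/-- A closed subgroup of a pro-`p` group is the intersection of the open subgroups `H * W`,
`W` open normal: if `g * w⁻¹ ∈ H` fails for all `w ∈ W` ... i.e. for `g ∉ H` there is an open
normal `W` with `g * w ∉ H` for all `w ∈ W`. (The set `{w | g * w ∉ H}` is an open neighbourhood
of `1`; use `exists_normal_le`.) -/
theorem exists_sep {p : ℕ} {G : Type} [Group G] [TopologicalSpace G] [IsTopologicalGroup G]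
    (hG : IsProP p G) (H : Subgroup G) (hH : IsClosed (H : Set G)) (g : G) (hg : g ∉ H) :
    ∃ W : Subgroup G, W.Normal ∧ IsOpen (W : Set G) ∧ ∀ w ∈ W, g * w ∉ H := by
  obtain ⟨W, h1, h2, h3⟩ := exists_normal_le hG {w : G | g * w ∉ H}
    (hH.isOpen_compl.preimage (continuous_const.mul continuous_id)) (by simpa using hg)
  exact ⟨W, h1, h2, fun w hw => h3 hw⟩

/-- The quotient of a pro-`p` group by an open normal subgroup is a finite `p`-group. -/
theorem quot_fin {p : ℕ} [Fact p.Prime] {G : Type} [Group G] [TopologicalSpace G]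
    [IsTopologicalGroup G] (hG : IsProP p G) (W : Subgroup G) [W.Normal]
    (hW : IsOpen (W : Set G)) : Finite (G ⧸ W) ∧ IsPGroup p (G ⧸ W) := by
  obtain ⟨k, hk⟩ := hG.pow W inferInstance hW
  have h1 : Nat.card (G ⧸ W) = p ^ k := hk
  have h2 : Finite (G ⧸ W) := Nat.finite_of_card_ne_zero (by
    rw [h1]; exact pow_ne_zero _ (Fact.out : p.Prime).ne_zero)
  exact ⟨h2, IsPGroup.of_card h1⟩

end Pool.Agent.MP_6fb7ad_al
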