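import Pool.Agent.MP_6fb7ad_al.A1

/-!
# MP_6fb7ad_al [OR-A2]: free pro-`p` groups have trivial second cohomology
-/

set_option autoImplicit false

namespace Pool.Agent.MP_6fb7ad_al

variable {p : ℕ} [Fact p.Prime] {X F : Type} [Group F] [TopologicalSpace F]
  [IsTopologicalGroup F] {i : X → F}

omit [Fact p.Prime] in
theorem a2a_conv (hF : IsFreeProP p i) {Q : Type} [Group Q] [TopologicalSpace Q] (q : F →* Q)
    (hq : Continuous q) : ConvOne (fun x => q (i x)) := by
  intro N hN
  exact hF.conv (N.comap q) (hN.preimage hq)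

/-- Two continuous homomorphisms from a free pro-`p` group to a finite discrete `p`-group that
agree on the basis are equal (uniqueness in `univ`, with `isProP_of_finite`, and the family
`q ∘ i` converges to `1` since `i` does: preimages of open subgroups under `q` are open). -/
theorem free_uniq (hF : IsFreeProP p i) {Q : Type} [Group Q] [Finite Q] [TopologicalSpace Q]
    [DiscreteTopology Q] [IsTopologicalGroup Q] (hQ : IsPGroup p Q) (q q' : F →* Q)
    (hq : Continuous q) (hq' : Continuous q') (h : ∀ x, q (i x) = q' (i x)) : q = q' := by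
  obtain ⟨φ, -, hφ⟩ := hF.univ Q (isProP_of_finite hQ) (fun x => q (i x)) (a2a_conv hF q hq)
  rw [hφ q ⟨hq, fun x => rfl⟩, hφ q' ⟨hq', fun x => (h x).symm⟩]

/-- the underlying set of the extension -/
structure a2a_E (p : ℕ) (Q : Type) where
  /-- the first component -/
  a : ZMod p
  /-- the second component -/
  x : Q

/-- the group extension given by a 2-cocycle -/
@[reducible] def a2a_group {p : ℕ} {Q : Type} [Group Q] (f : Q → Q → ZMod p)
    (hf : ∀ g h k, f h k + f g (h * k) = f (g * h) k + f g h) : Group (a2a_E p Q) where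
  mul u v := ⟨u.a + v.a + f u.x v.x, u.x * v.x⟩
  one := ⟨-f 1 1, 1⟩
  inv u := ⟨-f 1 1 - u.a - f u.x⁻¹ u.x, u.x⁻¹⟩
  mul_assoc u v w := by
    show (⟨u.a + v.a + f u.x v.x + w.a + f (u.x * v.x) w.x, u.x * v.x * w.x⟩ : a2a_E p Q) =
      ⟨u.a + (v.a + w.a + f v.x w.x) + f u.x (v.x * w.x), u.x * (v.x * w.x)⟩
    congr 1
    · linear_combination - hf u.x v.x w.x
    · rw [mul_assoc]
  one_mul u := by
    show (⟨-f 1 1 + u.a + f 1 u.x, 1 * u.x⟩ : a2a_E p Q) = ⟨u.a, u.x⟩
    have h := hf 1 1 u.x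
    rw [one_mul, one_mul] at h
    congr 1
    · linear_combination h
    · rw [one_mul]
  mul_one u := by
    show (⟨u.a + -f 1 1 + f u.x 1, u.x * 1⟩ : a2a_E p Q) = ⟨u.a, u.x⟩
    have h := hf u.x 1 1
    rw [one_mul, mul_one] at h
    congr 1
    · linear_combination - h
    · rw [mul_one]
  inv_mul_cancel u := by
    show (⟨-f 1 1 - u.a - f u.x⁻¹ u.x + u.a + f u.x⁻¹ u.x, u.x⁻¹ * u.x⟩ : a2a_E p Q) = ⟨-f 1 1, 1⟩
    congr 1
    · ring
    · rw [inv_mul_cancel]

/-- the underlying set is a product -/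
def a2a_equiv (p : ℕ) (Q : Type) : a2a_E p Q ≃ ZMod p × Q where
  toFun u := (u.a, u.x)
  invFun v := ⟨v.1, v.2⟩
  left_inv _ := rfl
  right_inv _ := rfl

/-- Let `E` be the set `ZMod p × Q` with the product `(a, x) (b, y) = (a + b + f x y, x * y)`: a
finite group (unit `(- f 1 1, 1)`; the cocycle identity is the associativity; note
`f 1 y = f 1 1 = f x 1`) with `p * |Q|` elements, hence a `p`-group; give it the discrete topology.
The family `x ↦ 1` if `q (i x) = 1` and `x ↦ (0, q (i x))` otherwise has finite support, so there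
is a continuous `s : F → E` with these values at the `i x` (`hF.univ`, `isProP_of_finite`,
`convOne_of_finite`). The composite of `s` with the projection `E → Q` equals `q` by `free_uniq`.
So `s g = (a g, q g)` and `a (g h) = a g + a h + f (q g) (q h)`: take `φ = - a`. -/
theorem free_fin (hF : IsFreeProP p i) {Q : Type} [Group Q] [Finite Q] [TopologicalSpace Q]
    [DiscreteTopology Q] [IsTopologicalGroup Q] (hQ : IsPGroup p Q) (q : F →* Q)
    (hq : Continuous q) (f : Q → Q → ZMod p)
    (hf : ∀ g h k, f h k + f g (h * k) = f (g * h) k + f g h) :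
    ∃ φ : F → ZMod p, IsLocallyConstant φ ∧ ∀ g h, f (q g) (q h) = φ g + φ h - φ (g * h) := by
  classical
  let : Group (a2a_E p Q) := a2a_group f hf
  let : TopologicalSpace (a2a_E p Q) := ⊥
  have : DiscreteTopology (a2a_E p Q) := ⟨rfl⟩
  have : NeZero p := ⟨(Fact.out : p.Prime).ne_zero⟩
  have : Finite (a2a_E p Q) := Finite.of_equiv _ (a2a_equiv p Q).symm
  have hE : IsPGroup p (a2a_E p Q) := by
    obtain ⟨n, hn⟩ := IsPGroup.iff_card.1 hQ
    refine IsPGroup.of_card (n := n + 1) ?_
    rw [Nat.card_congr (a2a_equiv p Q), Nat.card_prod, hn, Nat.card_zmod, pow_succ, mul_comm]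
  have hone : (1 : a2a_E p Q) = ⟨-f 1 1, 1⟩ := rfl
  let s₀ : X → a2a_E p Q := fun x => if q (i x) = 1 then 1 else ⟨0, q (i x)⟩
  have hfin : {x | s₀ x ≠ 1}.Finite := by
    have h1 : IsOpen ((⊥ : Subgroup Q) : Set Q) := isOpen_discrete _
    refine (a2a_conv hF q hq ⊥ h1).subset ?_
    intro x hx hx2
    apply hx
    have hx3 : q (i x) = 1 := by simpa using hx2
    show (if q (i x) = 1 then (1 : a2a_E p Q) else ⟨0, q (i x)⟩) = 1
    rw [if_pos hx3]
  obtain ⟨s, ⟨hs1, hs2⟩, -⟩ := hF.univ (a2a_E p Q) (isProP_of_finite hE) s₀ (convOne_of_finite s₀ hfin)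
  let π : a2a_E p Q →* Q :=
    { toFun := fun u => u.x
      map_one' := rfl
      map_mul' := fun _ _ => rfl }
  have hπ : π.comp s = q := by
    refine free_uniq hF hQ (π.comp s) q ((continuous_of_discreteTopology (f := π)).comp hs1) hq (fun x => ?_)
    show (s (i x)).x = q (i x)
    rw [hs2]
    show (if q (i x) = 1 then (1 : a2a_E p Q) else ⟨0, q (i x)⟩).x = q (i x)
    split_ifs with h
    · rw [h]
      rfl
    · rfl
  have hx : ∀ g, (s g).x = q g := fun g => DFunLike.congr_fun hπ g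
  have hmul : ∀ u v : a2a_E p Q, (u * v).a = u.a + v.a + f u.x v.x := fun _ _ => rfl
  refine ⟨fun g => -(s g).a, ?_, fun g h => ?_⟩
  · exact ((IsLocallyConstant.iff_continuous s).2 hs1).comp (fun u => -u.a)
  · have h1 := hmul (s g) (s h)
    rw [← map_mul, hx, hx] at h1
    show f (q g) (q h) = -(s g).a + -(s h).a - -(s (g * h)).a
    rw [h1]
    ring

/-- `Z2_inv` gives an open normal `W` such that `f` comes from a cocycle on `F ⧸ W`, a finite
`p`-group (`quot_fin`); give it the discrete topology (`⊥`; the projection is continuous since `W`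
is open) and apply `free_fin`. -/
theorem free_H2 (hF : IsFreeProP p i) (f : ↥(Z2 p F)) :
    ∃ φ : F → ZMod p, IsLocallyConstant φ ∧ ∀ g h, f.1 g h = φ g + φ h - φ (g * h) := by
  have hcpt : CompactSpace F := hF.proP.compact
  obtain ⟨W, hWn, hWo, hW⟩ := Z2_inv f
  obtain ⟨hfin, hpg⟩ := quot_fin hF.proP W hWo
  have hdisc : DiscreteTopology (F ⧸ W) := QuotientGroup.discreteTopology hWo
  have hq : Continuous (QuotientGroup.mk' W) := QuotientGroup.continuous_mk
  let f' : F ⧸ W → F ⧸ W → ZMod p := fun a b => f.1 a.out b.out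
  have hf' : ∀ g h : F, f' (QuotientGroup.mk' W g) (QuotientGroup.mk' W h) = f.1 g h := by
    intro g h
    obtain ⟨w, hw⟩ := QuotientGroup.mk_out_eq_mul W g
    obtain ⟨w', hw'⟩ := QuotientGroup.mk_out_eq_mul W h
    show f.1 (g : F ⧸ W).out (h : F ⧸ W).out = f.1 g h
    rw [hw, hw']
    exact hW w w.2 w' w'.2 g h
  have hcoc : ∀ g h k, f' h k + f' g (h * k) = f' (g * h) k + f' g h := by
    intro a b c
    obtain ⟨g, rfl⟩ := QuotientGroup.mk'_surjective W a
    obtain ⟨h, rfl⟩ := QuotientGroup.mk'_surjective W b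
    obtain ⟨k, rfl⟩ := QuotientGroup.mk'_surjective W c
    rw [← map_mul, ← map_mul, hf', hf', hf', hf']
    exact f.2.2 g h k
  obtain ⟨φ, hφ, hφ'⟩ := free_fin hF hpg (QuotientGroup.mk' W) hq f' hcoc
  refine ⟨φ, hφ, fun g h => ?_⟩
  rw [← hf', hφ']

end Pool.Agent.MP_6fb7ad_al
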