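import Pool.Agent.MP_6fb7ad_al.A2

/-!
# MP_6fb7ad_al [OR-A3]: a pro-`p` group with one defining relation has `dim H² ≤ 1`
-/

set_option autoImplicit false

namespace Pool.Agent.MP_6fb7ad_al

variable {p : ℕ} [Fact p.Prime]

/-- The cocycle identity with `f 1 1 = 0`. -/
theorem a3_left {U : Type} [Group U] (f : U → U → ZMod p)
    (hf : ∀ g h k, f h k + f g (h * k) = f (g * h) k + f g h) (h1 : f 1 1 = 0) (y : U) :
    f 1 y = 0 := by
  have h := hf 1 1 y
  simp only [one_mul, mul_one] at h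
  rw [h1] at h
  linear_combination h

theorem a3_right {U : Type} [Group U] (f : U → U → ZMod p)
    (hf : ∀ g h k, f h k + f g (h * k) = f (g * h) k + f g h) (h1 : f 1 1 = 0) (x : U) :
    f x 1 = 0 := by
  have h := hf x 1 1
  simp only [mul_one] at h
  rw [h1] at h
  linear_combination -h

/-- Step (2). -/
theorem a3_cob {U F : Type} [Group U] [TopologicalSpace U] [IsTopologicalGroup U] [T2Space U]
    [Group F] [TopologicalSpace F] [IsTopologicalGroup F] [CompactSpace F] (π : F →* U)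
    (hπ : Continuous π) (hs : Function.Surjective π) (r : F) (hr : r ∈ π.ker)
    (hmin : ∀ N : Subgroup F, N.Normal → IsClosed (N : Set F) → r ∈ N → π.ker ≤ N)
    (f : U → U → ZMod p) (hf : ∀ g h k, f h k + f g (h * k) = f (g * h) k + f g h)
    (h1 : f 1 1 = 0) (φ : F → ZMod p) (hφ : IsLocallyConstant φ)
    (hφf : ∀ g h, f (π g) (π h) = φ g + φ h - φ (g * h)) (h0 : φ r = 0) :
    ∃ ψ : U → ZMod p, IsLocallyConstant ψ ∧ ∀ g h, f g h = ψ g + ψ h - ψ (g * h) := by
  have hone : φ 1 = 0 := by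
    have h := hφf 1 1
    rw [map_one, h1, mul_one] at h
    linear_combination -h
  have hR : ∀ g n, π n = 1 → φ (g * n) = φ g + φ n := by
    intro g n hn
    have h := hφf g n
    rw [hn, a3_right f hf h1] at h
    linear_combination h
  have hL : ∀ g n, π n = 1 → φ (n * g) = φ n + φ g := by
    intro g n hn
    have h := hφf n g
    rw [hn, a3_left f hf h1] at h
    linear_combination h
  let N : Subgroup F :=
    { carrier := {n | π n = 1 ∧ φ n = 0}
      mul_mem' := by
        rintro a b ⟨ha, ha'⟩ ⟨hb, hb'⟩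
        refine ⟨by rw [map_mul, ha, hb, mul_one], ?_⟩
        rw [hR a b hb, ha', hb', add_zero]
      one_mem' := ⟨map_one π, hone⟩
      inv_mem' := by
        rintro a ⟨ha, ha'⟩
        have hi : π a⁻¹ = 1 := by rw [map_inv, ha, inv_one]
        refine ⟨hi, ?_⟩
        have h := hR a a⁻¹ hi
        rw [mul_inv_cancel, hone, ha', zero_add] at h
        exact h.symm }
  have hN : N.Normal := by
    refine ⟨?_⟩
    rintro n ⟨hn, hn'⟩ g
    have hm : π (g * n * g⁻¹) = 1 := by
      rw [map_mul, map_mul, hn, mul_one, map_inv, mul_inv_cancel]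
    refine ⟨hm, ?_⟩
    have h2 := hL g (g * n * g⁻¹) hm
    rw [inv_mul_cancel_right, hR g n hn, hn'] at h2
    linear_combination -h2
  have hc : IsClosed (N : Set F) := by
    have e : (N : Set F) = (π ⁻¹' {1}) ∩ (φ ⁻¹' {0}) := by
      ext n
      rfl
    rw [e]
    exact (isClosed_singleton.preimage hπ).inter (hφ.isClosed_fiber 0)
  have hk : ∀ n, π n = 1 → φ n = 0 := fun n hn => (hmin N hN hc ⟨hr, h0⟩ hn).2
  have hq : Topology.IsQuotientMap π := hπ.isClosedMap.isQuotientMap hπ hs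
  have hfib : ∀ g g', π g = π g' → φ g = φ g' := by
    intro g g' h
    have h3 : π (g⁻¹ * g') = 1 := by rw [map_mul, map_inv, h, inv_mul_cancel]
    have h4 := hR g (g⁻¹ * g') h3
    rw [mul_inv_cancel_left, hk _ h3, add_zero] at h4
    exact h4.symm
  let σ : U → F := Function.surjInv hs
  have hσ : ∀ u, π (σ u) = u := Function.surjInv_eq hs
  have hψ : ∀ g, φ (σ (π g)) = φ g := fun g => hfib _ _ (hσ _)
  refine ⟨fun u => φ (σ u), ?_, ?_⟩
  · intro s
    rw [← hq.isOpen_preimage]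
    have e : π ⁻¹' ((fun u => φ (σ u)) ⁻¹' s) = φ ⁻¹' s := by
      ext g
      simp only [Set.mem_preimage, hψ]
    rw [e]
    exact hφ s
  · intro g h
    have h5 := hφf (σ g) (σ h)
    rw [hσ, hσ] at h5
    have h6 : φ (σ (g * h)) = φ (σ g * σ h) := by
      refine hfib _ _ ?_
      rw [map_mul, hσ, hσ, hσ]
    show f g h = φ (σ g) + φ (σ h) - φ (σ (g * h))
    rw [h5, h6]

/-- Every class has a normalized representative. -/
theorem a3_norm {U : Type} [Group U] [TopologicalSpace U] (x : H2 p U) :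
    ∃ f : ↥(Z2 p U), f.1 1 1 = 0 ∧ (Submodule.Quotient.mk f : H2 p U) = x := by
  obtain ⟨f, rfl⟩ := Submodule.Quotient.mk_surjective _ x
  have hB : (fun _ _ => f.1 1 1 : U → U → ZMod p) ∈ Z2 p U :=
    ⟨IsLocallyConstant.const (f.1 1 1), fun g h k => rfl⟩
  refine ⟨f - ⟨_, hB⟩, ?_, ?_⟩
  · show f.1 1 1 - f.1 1 1 = 0
    exact sub_self _
  · refine (Submodule.Quotient.eq _).mpr ?_
    refine ⟨fun _ => -f.1 1 1, IsLocallyConstant.const (-f.1 1 1), fun g h => ?_⟩
    show f.1 g h - f.1 1 1 - f.1 g h = -f.1 1 1 + -f.1 1 1 - -f.1 1 1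
    ring

/-- Let `F, i, r, π` be as in the definition of `OneRelator`, `R = π.ker`.

(1) Every class of `H2 p U` has a representative `f` with `f 1 1 = 0` (subtract the coboundary of
the constant `f 1 1`: `c + c - c = c`); then `f 1 y = 0 = f x 1` for all `x, y` (cocycle identity).
By `free_H2` applied to `pullZ π` of `f` there is a locally constant `φ : F → ZMod p` with
`f (π g) (π h) = φ g + φ h - φ (g h)`. So `φ (g n) = φ g + φ n` and `φ (n g) = φ n + φ g` for
`n ∈ R`, `g ∈ F`, and hence `φ (g n g⁻¹) = φ n` (compare with `n = 1`).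

(2) If `φ r = 0` then `f` is a coboundary: `{n ∈ R | φ n = 0}` is a closed normal subgroup of `F`
(`R` is closed since `U` is Hausdorff) containing `r`, hence `φ = 0` on `R`, so `φ` is constant on
the fibres of `π` and `φ = ψ ∘ π` with `ψ` locally constant (`π` is a closed map, as `F` is compact
and `U` is Hausdorff, hence a quotient map: `IsQuotientMap`), and `f` is the coboundary of `ψ`.

(3) If `φ r = 0` for all normalized `f` and some `φ` as above, then `H2 p U = 0`. Otherwise there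
are `f₀, φ₀` with `φ₀ r ≠ 0`, and for any `f, φ` and `c = φ r / φ₀ r` the pair
`f - c f₀, φ - c φ₀` is as in (2): so the class of `f` is `c` times the class of `f₀`. Use
`rank_le_one_iff`. -/
theorem rank_le_one {U : Type} [Group U] [TopologicalSpace U] [IsTopologicalGroup U] [T2Space U]
    (h : OneRelator p U) : Module.rank (ZMod p) (H2 p U) ≤ 1 := by
  obtain ⟨X, F, _, _, _, i, r, π, hF, hπ, hs, hr, hmin⟩ := h
  have := hF.proP.compact
  have key : ∀ f : ↥(Z2 p U), ∃ φ : F → ZMod p, IsLocallyConstant φ ∧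
      ∀ g h, f.1 (π g) (π h) = φ g + φ h - φ (g * h) := by
    intro f
    exact free_H2 hF (pullZ π hπ f)
  have cob : ∀ (f : ↥(Z2 p U)), f.1 1 1 = 0 → ∀ φ : F → ZMod p, IsLocallyConstant φ →
      (∀ g h, f.1 (π g) (π h) = φ g + φ h - φ (g * h)) → φ r = 0 →
      (Submodule.Quotient.mk f : H2 p U) = 0 := by
    intro f h1 φ hφ hφf h0
    refine (Submodule.Quotient.mk_eq_zero _).mpr ?_
    exact a3_cob π hπ hs r hr hmin f.1 f.2.2 h1 φ hφ hφf h0
  rw [rank_le_one_iff]
  by_cases hex : ∃ (f : ↥(Z2 p U)) (φ : F → ZMod p), f.1 1 1 = 0 ∧ IsLocallyConstant φ ∧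
      (∀ g h, f.1 (π g) (π h) = φ g + φ h - φ (g * h)) ∧ φ r ≠ 0
  · obtain ⟨f₀, φ₀, h1, h2, h3, h4⟩ := hex
    refine ⟨Submodule.Quotient.mk f₀, fun x => ?_⟩
    obtain ⟨f, hf, rfl⟩ := a3_norm x
    obtain ⟨φ, hφ, hφf⟩ := key f
    refine ⟨φ r / φ₀ r, ?_⟩
    symm
    have e : (Submodule.Quotient.mk (f - (φ r / φ₀ r) • f₀) : H2 p U) = 0 := by
      refine cob _ ?_ (fun g => φ g - (φ r / φ₀ r) * φ₀ g) ?_ ?_ ?_
      · show f.1 1 1 - (φ r / φ₀ r) * f₀.1 1 1 = 0
        rw [hf, h1, mul_zero, sub_zero]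
      · exact hφ.sub (h2.comp fun y => (φ r / φ₀ r) * y)
      · intro g h
        show f.1 (π g) (π h) - (φ r / φ₀ r) * f₀.1 (π g) (π h) = _
        rw [hφf, h3]
        ring
      · show φ r - (φ r / φ₀ r) * φ₀ r = 0
        rw [div_mul_cancel₀ _ h4, sub_self]
    rw [Submodule.Quotient.mk_sub, Submodule.Quotient.mk_smul, sub_eq_zero] at e
    exact e
  · refine ⟨0, fun x => ⟨0, ?_⟩⟩
    obtain ⟨f, hf, rfl⟩ := a3_norm x
    obtain ⟨φ, hφ, hφf⟩ := key f
    rw [smul_zero]
    symm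
    refine cob f hf φ hφ hφf ?_
    by_contra h0
    exact hex ⟨f, φ, hf, hφ, hφf, h0⟩

end Pool.Agent.MP_6fb7ad_al
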