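import Pool.Agent.MP_6fb7ad_al.A1

/-!
# MP_6fb7ad_al [OR-B1]: construction of free pro-`p` groups
-/

set_option autoImplicit false

namespace Pool.Agent.MP_6fb7ad_al

/-- A family with finite support in a finite `p`-group (of permutations of `Fin n`). -/
structure Idx (p : ℕ) (X : Type) where
  n : ℕ
  P : Subgroup (Equiv.Perm (Fin n))
  pg : IsPGroup p P
  f : X → P
  fin : {x | f x ≠ 1}.Finite

/-- the discrete topology -/
instance (p : ℕ) (X : Type) (j : Idx p X) : TopologicalSpace j.P := ⊥

instance (p : ℕ) (X : Type) (j : Idx p X) : DiscreteTopology j.P := ⟨rfl⟩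

/-- The tautological family in the product of all the groups. -/
def iota (p : ℕ) (X : Type) (x : X) : (j : Idx p X) → j.P := fun j => j.f x

/-- The free pro-`p` group with basis `X`. -/
def Fr (p : ℕ) (X : Type) : Subgroup ((j : Idx p X) → j.P) :=
  (Subgroup.closure (Set.range (iota p X))).topologicalClosure

theorem iota_mem (p : ℕ) (X : Type) (x : X) : iota p X x ∈ Fr p X :=
  Subgroup.le_topologicalClosure _ (Subgroup.subset_closure ⟨x, rfl⟩)

/-- the basis -/
def bas (p : ℕ) (X : Type) (x : X) : Fr p X := ⟨iota p X x, iota_mem p X x⟩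

/-- `Fr p X` is closed in a product of finite discrete groups, so it is compact, Hausdorff and
totally disconnected. An open normal subgroup `N` contains `K ∩ Fr`, `K` the set of all `g` with
`g j = 1` for `j` in a finite set `J` (definition of the product topology, `isOpen_pi_iff`), so
`N` contains the kernel of `Fr → ∏ j ∈ J, P_j`, whose target is a finite `p`-group (product of
finitely many `p`-groups; or: its order is the product of powers of `p`): the index of `N` divides
(`Subgroup.index_dvd_of_le`) the index of the kernel, which is the order of the range, a power of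
`p` (`Nat.dvd_prime_pow`). -/
theorem Fr_proP (p : ℕ) [Fact p.Prime] (X : Type) : IsProP p (Fr p X) := by
  have hcl : IsClosed ((Fr p X : Subgroup ((j : Idx p X) → j.P)) : Set ((j : Idx p X) → j.P)) :=
    Subgroup.isClosed_topologicalClosure _
  refine ⟨?_, inferInstance, inferInstance, ?_⟩
  · exact isCompact_iff_compactSpace.1 hcl.isCompact
  · intro N hN hNo
    obtain ⟨U, hU, hUN⟩ := isOpen_induced_iff.1 hNo
    have h1 : (1 : (j : Idx p X) → j.P) ∈ U := by
      have h : (1 : Fr p X) ∈ Subtype.val ⁻¹' U := by
        rw [hUN]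
        exact N.one_mem
      exact h
    obtain ⟨J, u, hu, hJU⟩ := isOpen_pi_iff.1 hU 1 h1
    let ψ : Fr p X →* ((j : {j // j ∈ J}) → (j : Idx p X).P) :=
      { toFun := fun g j => (g : (j : Idx p X) → j.P) j
        map_one' := rfl
        map_mul' := fun _ _ => rfl }
    have hker : ψ.ker ≤ N := by
      intro g hg
      have h2 : (g : (j : Idx p X) → j.P) ∈ U := by
        refine hJU ?_
        intro j hj
        have h3 : (g : (j : Idx p X) → j.P) j = 1 := congrFun hg ⟨j, hj⟩
        rw [h3]
        exact (hu j hj).2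
      have h4 : g ∈ Subtype.val ⁻¹' U := h2
      rw [hUN] at h4
      exact h4
    have h5 : N.index ∣ ψ.ker.index := Subgroup.index_dvd_of_le hker
    rw [Subgroup.index_ker] at h5
    have h6 : Nat.card ψ.range ∣ Nat.card ((j : {j // j ∈ J}) → (j : Idx p X).P) :=
      Subgroup.card_subgroup_dvd_card _
    have h7 : ∃ k : ℕ, Nat.card ((j : {j // j ∈ J}) → (j : Idx p X).P) = p ^ k := by
      have h8 : ∀ j : {j // j ∈ J}, ∃ k : ℕ, Nat.card (j : Idx p X).P = p ^ k := fun j =>
        IsPGroup.iff_card.1 (j : Idx p X).pg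
      choose k hk using h8
      refine ⟨∑ j, k j, ?_⟩
      rw [Nat.card_pi, Finset.prod_congr rfl fun j _ => hk j, Finset.prod_pow_eq_pow_sum]
    obtain ⟨k, hk⟩ := h7
    rw [hk] at h6
    obtain ⟨m, _, hm⟩ := (Nat.dvd_prime_pow Fact.out).1 (h5.trans h6)
    exact ⟨m, hm⟩

/-- An open subgroup `N` contains all `g ∈ Fr` with `g j = 1` for `j` in a finite set `J`, hence all
`bas x` but the finitely many with `j.f x ≠ 1` for some `j ∈ J`. -/
theorem bas_conv (p : ℕ) (X : Type) : ConvOne (bas p X) := by
  intro N hN
  rw [isOpen_induced_iff] at hN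
  obtain ⟨V, hV, hVN⟩ := hN
  have h1 : (1 : (j : Idx p X) → j.P) ∈ V := by
    have : (1 : Fr p X) ∈ (Subtype.val ⁻¹' V : Set (Fr p X)) := by
      rw [hVN]; exact N.one_mem
    exact this
  rw [isOpen_pi_iff] at hV
  obtain ⟨J, u, hu, hJ⟩ := hV 1 h1
  have h2 : {x | bas p X x ∉ N} ⊆ ⋃ j ∈ J, {x | j.f x ≠ 1} := by
    intro x hx
    by_contra hc
    simp only [Set.mem_iUnion, Set.mem_ofPred_eq, not_exists, not_not] at hc
    apply hx
    have h3 : bas p X x ∈ (Subtype.val ⁻¹' V : Set (Fr p X)) := by
      apply hJ
      intro j hj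
      have h4 := hc j hj
      have h5 : (bas p X x : (j : Idx p X) → j.P) j = 1 := h4
      rw [h5]
      exact (hu j hj).2
    rw [hVN] at h3
    exact h3
  exact (Set.Finite.biUnion J.finite_toSet fun j _ => j.fin).subset h2

theorem bas_dense (p : ℕ) (X : Type) :
    Dense (Subgroup.closure (Set.range (bas p X)) : Set (Fr p X)) := by
  rw [dense_iff_closure_eq, Set.eq_univ_iff_forall]
  rintro ⟨g, hg⟩
  rw [closure_subtype]
  have h1 : (Subtype.val '' (Subgroup.closure (Set.range (bas p X)) : Set (Fr p X))) =
      (Subgroup.closure (Set.range (iota p X)) : Set ((j : Idx p X) → j.P)) := by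
    have h2 := MonoidHom.map_closure (Fr p X).subtype (Set.range (bas p X))
    have h3 : ((Fr p X).subtype '' Set.range (bas p X)) = Set.range (iota p X) := by
      rw [← Set.range_comp]
      rfl
    rw [h3] at h2
    rw [← h2]
    rfl
  rw [h1]
  exact hg

theorem b1c_aux (p : ℕ) (X P : Type) [Group P] [TopologicalSpace P]
    (j : Idx p X) (ψ : P ≃* j.P) (f : X → P) (hf : ∀ x, j.f x = ψ (f x)) :
    ∃ φ : Fr p X →* P, Continuous φ ∧ ∀ x, φ (bas p X x) = f x := by
  refine ⟨((ψ.symm : j.P →* P).comp (Pi.evalMonoidHom (fun j : Idx p X => j.P) j)).comp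
    (Fr p X).subtype, ?_, ?_⟩
  · have h1 : Continuous (fun g : Fr p X => (g : (j : Idx p X) → j.P) j) :=
      (continuous_apply j).comp continuous_subtype_val
    have h2 : Continuous (fun a : j.P => ψ.symm a) := continuous_of_discreteTopology
    exact h2.comp h1
  · intro x
    have h1 : ψ.symm (j.f x) = f x := by
      rw [hf x]
      exact ψ.symm_apply_apply (f x)
    exact h1

/-- A finite group `P` with `n` elements is isomorphic to a subgroup `P'` of
`Equiv.Perm (Fin n)` (Cayley: `MulAction.toPermHom P P` is injective, `Equiv.Perm P ≃* Equiv.Perm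
(Fin n)` via `Finite.equivFin`, `MonoidHom.ofInjective`); `j = (n, P', f')` with `f' = f` composed
with the isomorphism is an index, and `φ` is the coordinate at `j` followed by the inverse of the
isomorphism. -/
theorem bas_lift (p : ℕ) [Fact p.Prime] (X P : Type) [Group P] [Finite P] [TopologicalSpace P]
    [DiscreteTopology P] (hP : IsPGroup p P) (f : X → P) (hf : {x | f x ≠ 1}.Finite) :
    ∃ φ : Fr p X →* P, Continuous φ ∧ ∀ x, φ (bas p X x) = f x := by
  classical
  let e : P ≃ Fin (Nat.card P) := Finite.equivFin P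
  let ρ : P →* Equiv.Perm (Fin (Nat.card P)) :=
    (e.permCongrHom : Equiv.Perm P →* Equiv.Perm (Fin (Nat.card P))).comp (MulAction.toPermHom P P)
  have hρ : Function.Injective ρ := by
    intro a b hab
    have h1 : MulAction.toPermHom P P a = MulAction.toPermHom P P b :=
      e.permCongrHom.injective hab
    exact MulAction.toPerm_injective h1
  let ψ : P ≃* ρ.range := MonoidHom.ofInjective hρ
  let j : Idx p X :=
    { n := Nat.card P
      P := ρ.range
      pg := hP.of_equiv ψ
      f := fun x => ψ (f x)
      fin := by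
        refine hf.subset fun x hx h => hx ?_
        simp only [h, map_one] }
  exact b1c_aux p X P j ψ f fun x => rfl

theorem exists_freeFin (p : ℕ) [Fact p.Prime] (X : Type) : IsFreeFin p (bas p X) where
  proP := Fr_proP p X
  conv := bas_conv p X
  dense := bas_dense p X
  lift P _ _ _ _ hP f hf := bas_lift p X P hP f hf

end Pool.Agent.MP_6fb7ad_al
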