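import Pool.Agent.MP_6fb7ad_al.A1

/-!
# MP_6fb7ad_al [OR-B2]: from finite `p`-groups to pro-`p` groups
-/

set_option autoImplicit false

open Topology

namespace Pool.Agent.MP_6fb7ad_al

variable {p : ℕ} [Fact p.Prime] {X F : Type} [Group F] [TopologicalSpace F]
  [IsTopologicalGroup F] {i : X → F}

theorem b2_one (h : IsFreeFin p i) {P : Type} [Group P] [TopologicalSpace P]
    [IsTopologicalGroup P] (hP : IsProP p P) (f : X → P) (hf : ConvOne f) (W : Subgroup P) [W.Normal]
    (hW : IsOpen (W : Set P)) :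
    ∃ φ : F →* P ⧸ W, IsOpen (φ.ker : Set F) ∧ ∀ x, φ (i x) = (f x : P ⧸ W) := by
  obtain ⟨hfin, hp⟩ := quot_fin hP W hW
  have hdisc : DiscreteTopology (P ⧸ W) := QuotientGroup.discreteTopology hW
  obtain ⟨φ, hφc, hφ⟩ := h.lift (P ⧸ W) hp (fun x => (f x : P ⧸ W)) (by
    refine (hf W hW).subset ?_
    intro x hx hx'
    exact hx ((QuotientGroup.eq_one_iff (f x)).2 hx'))
  refine ⟨φ, ?_, hφ⟩
  have h1 : (φ.ker : Set F) = φ ⁻¹' {1} := by
    ext g
    exact Iff.rfl
  rw [h1]
  exact (isOpen_discrete _).preimage hφc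

omit [Fact p.Prime] in
theorem b2_uniq {Q : Type} [Group Q] (h : IsFreeFin p i) (φ ψ : F →* Q)
    (hφ : IsOpen (φ.ker : Set F)) (hψ : IsOpen (ψ.ker : Set F)) (hx : ∀ x, φ (i x) = ψ (i x)) :
    φ = ψ := by
  have h1 : IsOpen ((φ.eqLocus ψ : Subgroup F) : Set F) := by
    refine Subgroup.isOpen_mono (H₁ := φ.ker ⊓ ψ.ker) ?_ ?_
    · intro a ha
      change φ a = ψ a
      rw [MonoidHom.mem_ker.1 ha.1, MonoidHom.mem_ker.1 ha.2]
    · rw [Subgroup.coe_inf]
      exact hφ.inter hψ
  have h2 : IsClosed ((φ.eqLocus ψ : Subgroup F) : Set F) := Subgroup.isClosed_of_isOpen _ h1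
  have h3 : Subgroup.closure (Set.range i) ≤ φ.eqLocus ψ := by
    rw [Subgroup.closure_le]
    rintro _ ⟨x, rfl⟩
    exact hx x
  have h4 : closure (Subgroup.closure (Set.range i) : Set F) ⊆ ((φ.eqLocus ψ : Subgroup F) : Set F) :=
    closure_minimal h3 h2
  rw [h.dense.closure_eq] at h4
  ext g
  exact h4 (Set.mem_univ g)

/-- Existence of the homomorphism. For an open normal subgroup `W` of `P` the quotient `P ⧸ W` is a
finite `p`-group (`quot_fin`), with the discrete topology (for example its quotient topology, which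
is discrete: `QuotientGroup.discreteTopology`); by `h.lift` there is a continuous `φ_W : F → P ⧸ W`
with `φ_W (i x) = f x` modulo `W` for all `x` (finite support since `f` converges to `1`), and it
is unique since `i` generates a dense subgroup (`h.dense`, `MonoidHom.eqOn_closure`...,
`Continuous.ext_on`). So for `W' ≤ W` the composite `F → P ⧸ W' → P ⧸ W` is `φ_W`.
For `g : F` the sets `{y | y mod W = φ_W g}` are closed, nonempty and directed (for `W ⊓ W'`), so
they have a common element `φ g` by compactness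
(`IsCompact.nonempty_iInter_of_directed_nonempty_isCompact_isClosed`), unique since the
intersection of the open normal subgroups `W` is trivial (`exists_normal_le`, Hausdorff).
By uniqueness `φ` is a homomorphism, `φ (i x) = f x`, and it is continuous: the preimage of an open
normal `W` is the kernel of `φ_W`, which is open; use `exists_normal_le` and
`continuous_of_continuousAt_one`. -/
theorem IsFreeFin.exists_hom (h : IsFreeFin p i) {P : Type} [Group P] [TopologicalSpace P]
    [IsTopologicalGroup P] (hP : IsProP p P) (f : X → P) (hf : ConvOne f) :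
    ∃ φ : F →* P, Continuous φ ∧ ∀ x, φ (i x) = f x := by
  have hcomp : CompactSpace P := hP.compact
  have ht2 : T2Space P := hP.t2
  have hex : ∀ W : {W : Subgroup P // W.Normal ∧ IsOpen (W : Set P)}, ∃ φ : F → P → Prop,
      ∃ hn : W.1.Normal, ∃ φ' : F →* P ⧸ W.1, (∀ g y, φ g y ↔ (y : P ⧸ W.1) = φ' g) ∧
      IsOpen (φ'.ker : Set F) ∧ ∀ x, φ' (i x) = (f x : P ⧸ W.1) := by
    rintro ⟨W, hWn, hWo⟩
    obtain ⟨φ, h1, h2⟩ := b2_one h hP f hf W hWo
    exact ⟨fun g y => (y : P ⧸ W) = φ g, hWn, φ, fun g y => Iff.rfl, h1, h2⟩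
  choose R hn φ hR hker hφ using hex
  have hcompat : ∀ W W' : {W : Subgroup P // W.Normal ∧ IsOpen (W : Set P)}, W'.1 ≤ W.1 →
      ∀ g y, R W' g y → R W g y := by
    intro W W' hle g y hy
    rw [hR] at hy ⊢
    have hnW := hn W
    have hnW' := hn W'
    have h1 : (QuotientGroup.map W'.1 W.1 (MonoidHom.id P) hle).comp (φ W') = φ W := by
      refine b2_uniq h _ _ ?_ (hker W) ?_
      · refine Subgroup.isOpen_mono (H₁ := (φ W').ker) ?_ (hker W')
        intro a ha
        rw [MonoidHom.mem_ker] at ha ⊢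
        rw [MonoidHom.comp_apply, ha, map_one]
      · intro x
        rw [MonoidHom.comp_apply, hφ, hφ]
        rfl
    rw [← h1, MonoidHom.comp_apply, ← hy]
    rfl
  have hpt : ∀ g, ∃ y : P, ∀ W, R W g y := by
    intro g
    have hcl : ∀ W, IsClosed {y : P | R W g y} := by
      intro W
      have hnW := hn W
      obtain ⟨z, hz⟩ := QuotientGroup.mk_surjective (φ W g)
      have h1 : {y : P | R W g y} = (fun y => z⁻¹ * y) ⁻¹' (W.1 : Set P) := by
        ext y
        refine (hR W g y).trans ?_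
        rw [← hz, eq_comm, QuotientGroup.eq]
        exact Iff.rfl
      rw [h1]
      exact (W.1.isClosed_of_isOpen W.2.2).preimage (continuous_const.mul continuous_id)
    have hne : Nonempty {W : Subgroup P // W.Normal ∧ IsOpen (W : Set P)} :=
      ⟨⟨⊤, inferInstance, by rw [Subgroup.coe_top]; exact isOpen_univ⟩⟩
    have h1 := IsCompact.nonempty_iInter_of_directed_nonempty_isCompact_isClosed
      (fun W => {y : P | R W g y}) ?_ ?_ (fun W => (hcl W).isCompact) hcl
    · obtain ⟨y, hy⟩ := h1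
      exact ⟨y, fun W => Set.mem_iInter.1 hy W⟩
    · intro W W'
      have hnW := hn W
      have hnW' := hn W'
      refine ⟨⟨W.1 ⊓ W'.1, Subgroup.normal_inf_normal _ _, ?_⟩, ?_, ?_⟩
      · rw [Subgroup.coe_inf]
        exact W.2.2.inter W'.2.2
      · exact fun y hy => hcompat W _ inf_le_left g y hy
      · exact fun y hy => hcompat W' _ inf_le_right g y hy
    · intro W
      obtain ⟨z, hz⟩ := QuotientGroup.mk_surjective (φ W g)
      exact ⟨z, (hR W g z).2 hz⟩
  choose t ht using hpt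
  have huniq : ∀ g y, (∀ W, R W g y) → y = t g := by
    intro g y hy
    by_contra hne
    have h1 : t g * y⁻¹ ≠ 1 := fun h2 => hne (mul_inv_eq_one.1 h2).symm
    obtain ⟨W, hWn, hWo, hW⟩ := exists_normal_le hP {y⁻¹ * t g}ᶜ isOpen_compl_singleton
      (fun h2 => by
        have h3 : (1 : P) = y⁻¹ * t g := h2
        exact hne (inv_mul_eq_one.1 h3.symm))
    have h2 := (hR ⟨W, hWn, hWo⟩ g y).1 (hy _)
    have h3 := (hR ⟨W, hWn, hWo⟩ g (t g)).1 (ht g _)
    have h4 : ((y : P) : P ⧸ W) = ((t g : P) : P ⧸ W) := h2.trans h3.symm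
    rw [QuotientGroup.eq] at h4
    exact hW h4 rfl
  let ψ : F →* P := MonoidHom.mk' t (by
    intro a b
    symm
    apply huniq
    intro W
    have hnW := hn W
    rw [hR, QuotientGroup.mk_mul, map_mul, (hR W a (t a)).1 (ht a W), (hR W b (t b)).1 (ht b W)])
  refine ⟨ψ, ?_, ?_⟩
  · refine continuous_of_continuousAt_one ψ ?_
    rw [ContinuousAt, map_one]
    intro U hU
    obtain ⟨V, hVU, hVo, hV1⟩ := mem_nhds_iff.1 hU
    obtain ⟨W, hWn, hWo, hW⟩ := exists_normal_le hP V hVo hV1
    have h1 : ((φ ⟨W, hWn, hWo⟩).ker : Set F) ∈ 𝓝 (1 : F) :=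
      (hker ⟨W, hWn, hWo⟩).mem_nhds (Subgroup.one_mem _)
    refine Filter.mem_map.2 (Filter.mem_of_superset h1 ?_)
    intro g hg
    have h2 : φ ⟨W, hWn, hWo⟩ g = 1 := hg
    have h3 := (hR ⟨W, hWn, hWo⟩ g (t g)).1 (ht g _)
    rw [h2] at h3
    exact hVU (hW ((QuotientGroup.eq_one_iff (t g)).1 h3))
  · intro x
    symm
    apply huniq
    intro W
    rw [hR, hφ]

theorem IsFreeFin.free (h : IsFreeFin p i) : IsFreeProP p i := by
  refine ⟨h.proP, h.conv, ?_⟩
  intro P _ _ _ hP f hf
  obtain ⟨φ, hφc, hφ⟩ := h.exists_hom hP f hf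
  refine ⟨φ, ⟨hφc, hφ⟩, ?_⟩
  rintro ψ ⟨hψc, hψ⟩
  have ht2 : T2Space P := hP.t2
  refine DFunLike.coe_injective (Continuous.ext_on h.dense hψc hφc (MonoidHom.eqOn_closure ?_))
  rintro _ ⟨x, rfl⟩
  rw [hψ, hφ]

end Pool.Agent.MP_6fb7ad_al
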