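import Pool.Agent.MP_6fb7ad_al.A1

/-!
# MP_6fb7ad_al [OR-C1]: lifting families converging to `1`
-/

set_option autoImplicit false

namespace Pool.Agent.MP_6fb7ad_al

/-- Zorn's lemma. Consider the pairs `(N, c)`: `N ≤ N₀` a closed normal subgroup of `G`,
`c : B → G` with `(c₀ b)⁻¹ * c b ∈ N₀` for all `b`, such that for every open normal subgroup `V`
of `G` containing `N` the set `{b | c b ∉ V}` is finite. Preorder: `(N, c) ≤ (N', c')` iff
`N' ≤ N` and `(c b)⁻¹ * c' b ∈ N` for all `b`.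

Chains: for a nonempty chain let `N∞` be the intersection of the `N`, and let `c∞ b` be a common
element of the cosets `c b * N` (closed, nonempty, directed; compactness,
`IsCompact.nonempty_iInter_of_directed_nonempty_isCompact_isClosed` or the `sInter` version). If
`V ⊇ N∞` is open, then `V ⊇ N` for some `(N, c)` of the chain (compactness), and then
`c∞ b ∈ c b * N ⊆ V` iff `c b ∈ V`, so for almost all `b`. For the empty chain take `(N₀, c₀)`.

A maximal element `(N, c)` has `N = ⊥`: otherwise there is an open normal `W` that does not contain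
`N` (`exists_normal_le`, Hausdorff). Let `N' = N ⊓ W`. For all `b` outside a finite set
`c b ∈ W ⊔ N`, so `c b = w b * n b` with `w b ∈ W`, `n b ∈ N`; put `c' b = w b`, and `c' b = c b`
for the other `b`. Then `(c b)⁻¹ * c' b ∈ N`. If `V ⊇ N'` is open normal then `(V ⊓ W) ⊔ N` is an
open normal subgroup containing `N`, so for almost all `b` (and outside the finite set) `c b = v n`
with `v ∈ V ⊓ W`, `n ∈ N`; then `v⁻¹ * w b = n * (n b)⁻¹` lies in `W ⊓ N = N' ≤ V`, hence
`c' b = w b ∈ V`. So `(N', c')` is strictly larger.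

For `N = ⊥` we have `c b` in every open normal `V` for almost all `b`; use `convOne_of_normal`. -/
theorem exists_conv_lift {p : ℕ} {G : Type} [Group G] [TopologicalSpace G] [IsTopologicalGroup G]
    (hG : IsProP p G) (N₀ : Subgroup G) (hn : N₀.Normal) (hN : IsClosed (N₀ : Set G)) {B : Type}
    (c₀ : B → G) (hc : ∀ V : Subgroup G, V.Normal → IsOpen (V : Set G) → N₀ ≤ V →
      {b | c₀ b ∉ V}.Finite) :
    ∃ c : B → G, (∀ b, (c₀ b)⁻¹ * c b ∈ N₀) ∧ ConvOne c := by
  have hcomp : CompactSpace G := hG.compact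
  have ht2 : T2Space G := hG.t2
  let S := {x : Subgroup G × (B → G) // x.1.Normal ∧ IsClosed (x.1 : Set G) ∧ x.1 ≤ N₀ ∧
    (∀ b, (c₀ b)⁻¹ * x.2 b ∈ N₀) ∧ ∀ V : Subgroup G, V.Normal → IsOpen (V : Set G) → x.1 ≤ V →
      {b | x.2 b ∉ V}.Finite}
  let r : S → S → Prop := fun x y => y.1.1 ≤ x.1.1 ∧ ∀ b, (x.1.2 b)⁻¹ * y.1.2 b ∈ x.1.1
  have hrefl : ∀ x : S, r x x := fun x => ⟨le_rfl, fun b => by
    rw [inv_mul_cancel]
    exact x.1.1.one_mem⟩
  have htrans : ∀ {x y z : S}, r x y → r y z → r x z := by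
    rintro x y z ⟨h1, h2⟩ ⟨h3, h4⟩
    refine ⟨h3.trans h1, fun b => ?_⟩
    have h5 : (x.1.2 b)⁻¹ * z.1.2 b = ((x.1.2 b)⁻¹ * y.1.2 b) * ((y.1.2 b)⁻¹ * z.1.2 b) := by group
    rw [h5]
    exact x.1.1.mul_mem (h2 b) (h1 (h4 b))
  obtain ⟨m, hm⟩ : ∃ m : S, ∀ a, r m a → r a m := by
    refine exists_maximal_of_chains_bounded ?_ htrans
    intro C hC
    rcases C.eq_empty_or_nonempty with rfl | hne
    · exact ⟨⟨(N₀, c₀), hn, hN, le_rfl, fun b => by
        rw [inv_mul_cancel]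
        exact N₀.one_mem, hc⟩, fun a ha => absurd ha (Set.notMem_empty a)⟩
    have hne' : Nonempty C := hne.to_subtype
    have hdir : ∀ x y : C, r x.1 y.1 ∨ r y.1 x.1 := by
      intro x y
      by_cases h : x = y
      · subst h
        exact Or.inl (hrefl _)
      · exact hC x.2 y.2 (fun h' => h (Subtype.ext h'))
    have hex : ∀ b, ∃ y : G, ∀ x : C, (x.1.1.2 b)⁻¹ * y ∈ x.1.1.1 := by
      intro b
      have hcl : ∀ x : C, IsClosed {y : G | (x.1.1.2 b)⁻¹ * y ∈ x.1.1.1} := fun x =>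
        x.1.2.2.1.preimage (continuous_const.mul continuous_id)
      have h1 := IsCompact.nonempty_iInter_of_directed_nonempty_isCompact_isClosed
        (fun x : C => {y : G | (x.1.1.2 b)⁻¹ * y ∈ x.1.1.1}) ?_ ?_ (fun x => (hcl x).isCompact) hcl
      · obtain ⟨y, hy⟩ := h1
        exact ⟨y, fun x => Set.mem_iInter.1 hy x⟩
      · have key : ∀ x y : C, r x.1 y.1 → {z : G | (y.1.1.2 b)⁻¹ * z ∈ y.1.1.1} ⊆
            {z : G | (x.1.1.2 b)⁻¹ * z ∈ x.1.1.1} := by
          rintro x y ⟨h2, h3⟩ z hz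
          have h5 : (x.1.1.2 b)⁻¹ * z = ((x.1.1.2 b)⁻¹ * y.1.1.2 b) * ((y.1.1.2 b)⁻¹ * z) := by group
          change (x.1.1.2 b)⁻¹ * z ∈ x.1.1.1
          rw [h5]
          exact x.1.1.1.mul_mem (h3 b) (h2 hz)
        intro x y
        rcases hdir x y with h2 | h2
        · exact ⟨y, key x y h2, subset_rfl⟩
        · exact ⟨x, subset_rfl, key y x h2⟩
      · intro x
        refine ⟨x.1.1.2 b, ?_⟩
        change (x.1.1.2 b)⁻¹ * x.1.1.2 b ∈ x.1.1.1
        rw [inv_mul_cancel]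
        exact x.1.1.1.one_mem
    choose c hcc using hex
    have hle : ∀ V : Subgroup G, IsOpen (V : Set G) → (⨅ x : C, x.1.1.1) ≤ V →
        ∃ x : C, x.1.1.1 ≤ V := by
      intro V hV hle
      by_contra hcon
      push Not at hcon
      have hcl : ∀ x : C, IsClosed ((x.1.1.1 : Set G) ∩ (V : Set G)ᶜ) := fun x =>
        x.1.2.2.1.inter hV.isClosed_compl
      have h1 := IsCompact.nonempty_iInter_of_directed_nonempty_isCompact_isClosed
        (fun x : C => (x.1.1.1 : Set G) ∩ (V : Set G)ᶜ) ?_ ?_ (fun x => (hcl x).isCompact) hcl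
      · obtain ⟨y, hy⟩ := h1
        rw [Set.mem_iInter] at hy
        obtain ⟨x0⟩ := hne'
        refine (hy x0).2 (hle ?_)
        rw [Subgroup.mem_iInf]
        exact fun x => (hy x).1
      · intro x y
        rcases hdir x y with h2 | h2
        · exact ⟨y, Set.inter_subset_inter_left _ h2.1, subset_rfl⟩
        · exact ⟨x, subset_rfl, Set.inter_subset_inter_left _ h2.1⟩
      · intro x
        obtain ⟨y, hy1, hy2⟩ := Set.not_subset.1 (hcon x)
        exact ⟨y, hy1, hy2⟩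
    obtain ⟨x0⟩ := hne'
    refine ⟨⟨(⨅ x : C, x.1.1.1, c), ?_, ?_, ?_, ?_, ?_⟩, ?_⟩
    · exact Subgroup.normal_iInf_normal (fun x : C => x.1.2.1)
    · change IsClosed ((⨅ x : C, x.1.1.1 : Subgroup G) : Set G)
      rw [Subgroup.coe_iInf]
      exact isClosed_iInter (fun x => x.1.2.2.1)
    · exact (iInf_le _ x0).trans x0.1.2.2.2.1
    · intro b
      have h5 : (c₀ b)⁻¹ * c b = ((c₀ b)⁻¹ * x0.1.1.2 b) * ((x0.1.1.2 b)⁻¹ * c b) := by group
      change (c₀ b)⁻¹ * c b ∈ N₀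
      rw [h5]
      exact N₀.mul_mem (x0.1.2.2.2.2.1 b) (x0.1.2.2.2.1 (hcc b x0))
    · intro V hVn hVo hV
      obtain ⟨x, hx⟩ := hle V hVo hV
      refine (x.1.2.2.2.2.2 V hVn hVo hx).subset ?_
      intro b hb hb'
      apply hb
      have h5 : c b = x.1.1.2 b * ((x.1.1.2 b)⁻¹ * c b) := by group
      change c b ∈ V
      rw [h5]
      exact V.mul_mem hb' (hx (hcc b x))
    · intro x hx
      exact ⟨iInf_le (fun x : C => x.1.1.1) ⟨x, hx⟩, fun b => hcc b ⟨x, hx⟩⟩
  obtain ⟨⟨N, c⟩, hNn, hNc, hNN, hcN, hcf⟩ := m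
  have hNn' : N.Normal := hNn
  have hbot : N = ⊥ := by
    by_contra hne
    obtain ⟨g, hgN, hg1⟩ := N.bot_or_exists_ne_one.resolve_left hne
    obtain ⟨W, hWn, hWo, hW⟩ := exists_normal_le hG {g}ᶜ isOpen_compl_singleton
      (fun h => hg1 (Set.mem_singleton_iff.1 h).symm)
    have hex : ∀ b, ∃ y, (c b)⁻¹ * y ∈ N ∧ (c b ∈ W ⊔ N → y ∈ W) := by
      intro b
      by_cases hb : c b ∈ W ⊔ N
      · have h1 : c b ∈ ((W ⊔ N : Subgroup G) : Set G) := hb
        rw [Subgroup.mul_normal] at h1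
        obtain ⟨w, hw, n, hn', he⟩ := Set.mem_mul.1 h1
        refine ⟨w, ?_, fun _ => hw⟩
        rw [← he]
        have h2 : (w * n)⁻¹ * w = n⁻¹ := by group
        rw [h2]
        exact N.inv_mem hn'
      · refine ⟨c b, ?_, fun h => absurd h hb⟩
        rw [inv_mul_cancel]
        exact N.one_mem
    choose c' hc1 hc2 using hex
    have hm' := hm ⟨(N ⊓ W, c'), ?_, ?_, ?_, ?_, ?_⟩ ⟨inf_le_left, hc1⟩
    · exact hW (hm'.1 hgN).2 rfl
    · exact Subgroup.normal_inf_normal N W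
    · change IsClosed ((N ⊓ W : Subgroup G) : Set G)
      rw [Subgroup.coe_inf]
      exact hNc.inter (W.isClosed_of_isOpen hWo)
    · exact inf_le_left.trans hNN
    · intro b
      have h5 : (c₀ b)⁻¹ * c' b = ((c₀ b)⁻¹ * c b) * ((c b)⁻¹ * c' b) := by group
      change (c₀ b)⁻¹ * c' b ∈ N₀
      rw [h5]
      exact N₀.mul_mem (hcN b) (hNN (hc1 b))
    · intro V hVn hVo hV
      have hU1 : IsOpen (((V ⊓ W) ⊔ N : Subgroup G) : Set G) := by
        refine Subgroup.isOpen_mono (H₁ := V ⊓ W) le_sup_left ?_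
        rw [Subgroup.coe_inf]
        exact hVo.inter hWo
      have hU2 : ((V ⊓ W) ⊔ N).Normal := by
        have h1 : (V ⊓ W).Normal := Subgroup.normal_inf_normal V W
        exact Subgroup.sup_normal (V ⊓ W) N
      refine (hcf ((V ⊓ W) ⊔ N) hU2 hU1 le_sup_right).subset ?_
      intro b hb hb'
      apply hb
      change c' b ∈ V
      have h1 : c b ∈ (((V ⊓ W) ⊔ N : Subgroup G) : Set G) := hb'
      rw [Subgroup.mul_normal] at h1
      obtain ⟨v, hv, n, hn', he⟩ := Set.mem_mul.1 h1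
      have h2 : c' b ∈ W := hc2 b (by
        have h3 : (V ⊓ W) ⊔ N ≤ W ⊔ N := sup_le_sup_right inf_le_right N
        exact h3 hb')
      have h3 : v⁻¹ * c' b = n * ((c b)⁻¹ * c' b) := by
        rw [← he]
        group
      have h4 : v⁻¹ * c' b ∈ N ⊓ W := by
        refine ⟨?_, W.mul_mem (W.inv_mem hv.2) h2⟩
        rw [h3]
        exact N.mul_mem hn' (hc1 b)
      have h5 : c' b = v * (v⁻¹ * c' b) := by group
      rw [h5]
      exact V.mul_mem hv.1 (hV h4)
  refine ⟨c, hcN, convOne_of_normal hG c fun V hVn hVo => hcf V hVn hVo ?_⟩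
  change N ≤ V
  rw [hbot]
  exact bot_le

end Pool.Agent.MP_6fb7ad_al
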