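import Pool.Agent.MP_6fb7ad_al.C1

/-!
# MP_6fb7ad_al [OR-C2]: a basis of the characters and a dual family converging to `1`
-/

set_option autoImplicit false

namespace Pool.Agent.MP_6fb7ad_al

variable {p : ℕ} [Fact p.Prime] {G : Type} [Group G] [TopologicalSpace G] [IsTopologicalGroup G]

/-- The space of continuous characters `G → ZMod p`. -/
def Ch (p : ℕ) (G : Type) [Group G] [TopologicalSpace G] : Submodule (ZMod p) (G → ZMod p) where
  carrier := {χ | IsChar p χ}
  add_mem' := by
    rintro χ ψ ⟨h1, h2⟩ ⟨h3, h4⟩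
    refine ⟨h1.add h3, fun g h => ?_⟩
    simp only [Pi.add_apply, h2, h4]
    ring
  zero_mem' := ⟨IsLocallyConstant.const 0, fun g h => by simp⟩
  smul_mem' := by
    rintro c χ ⟨h1, h2⟩
    refine ⟨h1.comp (fun y => c * y), fun g h => ?_⟩
    simp only [Pi.smul_apply, smul_eq_mul, h2]
    ring

theorem c2a_surj {ι : Type} {e : ι → Ch p G} (he : LinearIndependent (ZMod p) e) (S : Finset ι)
    (v : ι → ZMod p) : ∃ g : G, ∀ b ∈ S, (e b : G → ZMod p) g = v b := by
  classical
  have hone : ∀ χ : G → ZMod p, IsChar p χ → χ 1 = 0 := by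
    intro χ hχ
    have := hχ.mul 1 1
    rw [mul_one] at this
    exact left_eq_add.mp this
  have hinv : ∀ χ : G → ZMod p, IsChar p χ → ∀ g, χ g⁻¹ = - χ g := by
    intro χ hχ g
    have h := hχ.mul g g⁻¹
    rw [mul_inv_cancel, hone χ hχ] at h
    exact (neg_eq_of_add_eq_zero_right h.symm).symm
  let A : AddSubgroup (S → ZMod p) :=
    { carrier := Set.range (fun g : G => fun b : S => (e b.1 : G → ZMod p) g)
      add_mem' := by
        rintro _ _ ⟨g, rfl⟩ ⟨h, rfl⟩
        refine ⟨g * h, ?_⟩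
        funext b
        exact (e b.1).2.mul g h
      zero_mem' := by
        refine ⟨1, ?_⟩
        funext b
        exact hone _ (e b.1).2
      neg_mem' := by
        rintro _ ⟨g, rfl⟩
        refine ⟨g⁻¹, ?_⟩
        funext b
        exact hinv _ (e b.1).2 g }
  let W : Submodule (ZMod p) (S → ZMod p) := AddSubgroup.toZModSubmodule p A
  have hWA : ∀ x, x ∈ W ↔ x ∈ A := fun x => AddSubgroup.mem_toZModSubmodule p
  have hW : W = ⊤ := by
    by_contra hne
    obtain ⟨f, hf0, hf⟩ := Submodule.exists_le_ker_of_lt_top W (lt_top_iff_ne_top.2 hne)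
    apply hf0
    have hfx : ∀ x : S → ZMod p, f x = ∑ b : S, x b * f (Pi.single b 1) := by
      intro x
      conv_lhs => rw [← Finset.univ_sum_single x]
      rw [map_sum]
      refine Finset.sum_congr rfl fun b _ => ?_
      have : (Pi.single b (x b) : S → ZMod p) = x b • Pi.single b 1 := by
        rw [← Pi.single_smul, smul_eq_mul, mul_one]
      rw [this, map_smul, smul_eq_mul]
    have hz : ∑ b : S, f (Pi.single b 1) • e b.1 = 0 := by
      apply Subtype.ext
      funext g
      have h1 : (fun b : S => (e b.1 : G → ZMod p) g) ∈ LinearMap.ker f :=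
        hf ((hWA _).2 ⟨g, rfl⟩)
      rw [LinearMap.mem_ker, hfx] at h1
      rw [Submodule.coe_sum, Finset.sum_apply]
      show ∑ b : S, f (Pi.single b 1) * (e b.1 : G → ZMod p) g = 0
      rw [← h1]
      exact Finset.sum_congr rfl fun b _ => mul_comm _ _
    have hli : LinearIndependent (ZMod p) (fun b : S => e b.1) :=
      he.comp _ Subtype.val_injective
    have hb := Fintype.linearIndependent_iff.1 hli _ hz
    apply LinearMap.ext
    intro x
    rw [hfx, LinearMap.zero_apply]
    exact Finset.sum_eq_zero fun b _ => by rw [hb b, mul_zero]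
  have h1 : (fun b : S => v b.1) ∈ A := (hWA _).1 (by rw [hW]; trivial)
  obtain ⟨g, hg⟩ := h1
  exact ⟨g, fun b hb => congrFun hg ⟨b, hb⟩⟩

/-- Let `e b` (`b ∈ B`) be a basis of `Ch p G` (`Module.Basis.ofVectorSpace`, index type in
`Type`). For a finite set `S` of indices the map `G → (S → ZMod p)`, `g ↦ (e b g)_b`, is
surjective: its image is a subgroup, hence a subspace (`AddSubgroup.toZModSubmodule`; the map is a
homomorphism from `G` to the additive group); if it were not everything there would be a nonzero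
linear form vanishing on it (`Submodule.exists_le_ker_of_notMem` or `Submodule.exists_le_ker_of_lt_top`),
that is a nontrivial linear relation between the `e b`, `b ∈ S`. Hence for given values `v b` the
closed sets `{g | e b g = v b for all b ∈ S}` are nonempty and directed, so there is a `g` with
`e b g = v b` for all `b` by compactness. Apply this to `v = Pi.single b 1`. -/
theorem exists_dual (hG : IsProP p G) : ∃ (B : Type) (e : B → G → ZMod p) (c : B → G),
    (∀ b, IsChar p (e b)) ∧
    (∀ χ : G → ZMod p, IsChar p χ → ∃ (s : Finset B) (a : B → ZMod p),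
      ∀ g, χ g = ∑ b ∈ s, a b * e b g) ∧
    (∀ b, e b (c b) = 1) ∧ (∀ b b', b ≠ b' → e b' (c b) = 0) := by
  classical
  have := hG.compact
  let β := Module.Basis.ofVectorSpace (ZMod p) (Ch p G)
  have hv : ∀ v : Module.Basis.ofVectorSpaceIndex (ZMod p) (Ch p G) → ZMod p,
      ∃ g : G, ∀ b, (β b : G → ZMod p) g = v b := by
    intro v
    have h1 : (⋂ b, {g : G | (β b : G → ZMod p) g = v b}).Nonempty := by
      apply CompactSpace.iInter_nonempty
      · intro b
        exact ((β b).2.lc.isClosed_fiber (v b))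
      · intro S
        obtain ⟨g, hg⟩ := c2a_surj β.linearIndependent S v
        exact ⟨g, Set.mem_iInter₂.2 fun b hb => hg b hb⟩
    obtain ⟨g, hg⟩ := h1
    exact ⟨g, fun b => Set.mem_iInter.1 hg b⟩
  choose c hc using hv
  refine ⟨Module.Basis.ofVectorSpaceIndex (ZMod p) (Ch p G), fun b => (β b : G → ZMod p),
    fun b => c (Pi.single b 1), fun b => (β b).2, ?_, ?_, ?_⟩
  · intro χ hχ
    refine ⟨(β.repr ⟨χ, hχ⟩).support, fun b => β.repr ⟨χ, hχ⟩ b, fun g => ?_⟩
    have h1 := β.linearCombination_repr ⟨χ, hχ⟩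
    rw [Finsupp.linearCombination_apply, Finsupp.sum] at h1
    have h2 := congrArg (fun x : Ch p G => (x : G → ZMod p) g) h1
    simp only [Submodule.coe_sum, Finset.sum_apply] at h2
    exact h2.symm
  · intro b
    show (β b : G → ZMod p) (c (Pi.single b 1)) = 1
    rw [hc, Pi.single_eq_same]
  · intro b b' hbb'
    show (β b' : G → ZMod p) (c (Pi.single b 1)) = 0
    rw [hc, Pi.single_eq_of_ne' hbb']

/-- The intersection of the kernels of the continuous characters. -/
def Phi (p : ℕ) (G : Type) [Group G] [TopologicalSpace G] : Subgroup G where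
  carrier := {g | ∀ χ : G → ZMod p, IsChar p χ → χ g = 0}
  mul_mem' := by
    intro a b ha hb χ hχ
    rw [hχ.mul, ha χ hχ, hb χ hχ, add_zero]
  one_mem' := by
    intro χ hχ
    have := hχ.mul 1 1
    rw [mul_one] at this
    exact left_eq_add.mp this
  inv_mem' := by
    intro a ha χ hχ
    have h1 := hχ.mul 1 1
    rw [mul_one] at h1
    have h2 := hχ.mul a a⁻¹
    rw [mul_inv_cancel, ha χ hχ, left_eq_add.mp h1, zero_add] at h2
    exact h2.symm

theorem c2b_one {χ : G → ZMod p} (hχ : IsChar p χ) : χ 1 = 0 := by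
  have := hχ.mul 1 1
  rw [mul_one] at this
  exact left_eq_add.mp this

theorem c2b_inv {χ : G → ZMod p} (hχ : IsChar p χ) (g : G) : χ g⁻¹ = - χ g := by
  have h := hχ.mul g g⁻¹
  rw [mul_inv_cancel, c2b_one hχ] at h
  exact (neg_eq_of_add_eq_zero_right h.symm).symm

theorem c2b_pow {χ : G → ZMod p} (hχ : IsChar p χ) (g : G) (n : ℕ) : χ (g ^ n) = n * χ g := by
  induction n with
  | zero => rw [pow_zero, c2b_one hχ, Nat.cast_zero, zero_mul]
  | succ n ih =>
    rw [pow_succ, hχ.mul, ih]
    push_cast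
    ring

theorem c2b_sep0 {M : Type} [AddCommGroup M] [Module (ZMod p) M] {x : M} (hx : x ≠ 0) :
    ∃ f : M → ZMod p, (∀ a b, f (a + b) = f a + f b) ∧ f x ≠ 0 := by
  have key : ¬ ∀ f : Module.Dual (ZMod p) M, f x = 0 := by
    intro hcon
    exact hx ((Module.forall_dual_apply_eq_zero_iff (ZMod p) _).1 hcon)
  push Not at key
  obtain ⟨f, hf⟩ := key
  exact ⟨fun y => f y, fun a b => f.map_add a b, hf⟩
theorem c2b_sep {Q : Type} [CommGroup Q] (h : ∀ x : Q, x ^ p = 1) {x : Q} (hx : x ≠ 1) :
    ∃ f : Q → ZMod p, (∀ a b, f (a * b) = f a + f b) ∧ f x ≠ 0 := by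
  let inst : Module (ZMod p) (Additive Q) :=
    AddCommGroup.zmodModule (fun y => congrArg Additive.ofMul (h (Additive.toMul y)))
  have hne : Additive.ofMul x ≠ 0 := fun h0 => hx (congrArg Additive.toMul h0)
  obtain ⟨f, hf1, hf2⟩ := c2b_sep0 (p := p) hne
  exact ⟨fun y => f (Additive.ofMul y), fun a b => hf1 (Additive.ofMul a) (Additive.ofMul b), hf2⟩

theorem Phi_normal : (Phi p G).Normal := by
  refine ⟨fun n hn g χ hχ => ?_⟩
  rw [hχ.mul, hχ.mul, c2b_inv hχ, hn χ hχ]
  ring

theorem Phi_closed : IsClosed (Phi p G : Set G) := by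
  have h : (Phi p G : Set G) = ⋂ (χ : G → ZMod p) (_ : IsChar p χ), {g | χ g = 0} := by
    ext g
    simp only [Set.mem_iInter]
    exact Iff.rfl
  rw [h]
  exact isClosed_iInter fun χ => isClosed_iInter fun hχ => hχ.lc.isClosed_fiber 0

/-- If `V` is an open normal subgroup containing `Phi p G` then finitely many characters cut out a
subgroup of `V`: `G ⧸ V` is finite, it is commutative and of exponent `p` (commutators and `p`-th
powers are killed by all characters), so it is a finite vector space over `ZMod p`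
(`AddCommGroup.zmodModule` for `Additive`), whose linear forms separate points, and there are
finitely many of them; compose them with the projection `G → G ⧸ V`. -/
theorem exists_finset_char (hG : IsProP p G) (V : Subgroup G) (hV : V.Normal)
    (hV' : IsOpen (V : Set G)) (h : Phi p G ≤ V) :
    ∃ T : Finset (G → ZMod p), (∀ χ ∈ T, IsChar p χ) ∧ ∀ g, (∀ χ ∈ T, χ g = 0) → g ∈ V := by
  classical
  have := hG.compact
  have hfin : Finite (G ⧸ V) := Subgroup.quotient_finite_of_isOpen V hV'
  have hT : {χ : G → ZMod p | IsChar p χ ∧ ∀ g ∈ V, χ g = 0}.Finite := by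
    refine (Set.finite_range (fun f : G ⧸ V → ZMod p => fun g : G => f (QuotientGroup.mk g))).subset ?_
    rintro χ ⟨hχ, hχV⟩
    refine ⟨fun q => χ q.out, ?_⟩
    funext g
    have h1 : g⁻¹ * (QuotientGroup.mk g : G ⧸ V).out ∈ V := by
      rw [← QuotientGroup.eq]
      exact (QuotientGroup.out_eq' _).symm
    have h2 := hχV _ h1
    rw [hχ.mul, c2b_inv hχ] at h2
    linear_combination h2
  refine ⟨hT.toFinset, fun χ hχ => ((Set.Finite.mem_toFinset hT).1 hχ).1, ?_⟩
  intro g hg
  by_contra hgV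
  have hcomm : ∀ a b : G ⧸ V, a * b = b * a := by
    intro a b
    obtain ⟨a, rfl⟩ := QuotientGroup.mk_surjective a
    obtain ⟨b, rfl⟩ := QuotientGroup.mk_surjective b
    rw [← QuotientGroup.mk_mul, ← QuotientGroup.mk_mul, QuotientGroup.eq]
    apply h
    intro χ hχ
    rw [hχ.mul, c2b_inv hχ, hχ.mul, hχ.mul]
    ring
  have hexp : ∀ x : G ⧸ V, x ^ p = 1 := by
    intro x
    obtain ⟨a, rfl⟩ := QuotientGroup.mk_surjective x
    rw [← QuotientGroup.mk_pow, QuotientGroup.eq_one_iff]
    apply h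
    intro χ hχ
    rw [c2b_pow hχ, ZMod.natCast_self, zero_mul]
  have hne : (QuotientGroup.mk g : G ⧸ V) ≠ 1 := fun h0 => hgV ((QuotientGroup.eq_one_iff g).1 h0)
  obtain ⟨f, hf1, hf2⟩ := @c2b_sep p _ (G ⧸ V)
    { (inferInstance : Group (G ⧸ V)) with mul_comm := hcomm } hexp _ hne
  have hf1' : ∀ a b : G ⧸ V, f (a * b) = f a + f b := hf1
  refine hf2 (hg (fun y => f (QuotientGroup.mk y)) ?_)
  rw [Set.Finite.mem_toFinset]
  refine ⟨⟨?_, ?_⟩, ?_⟩
  · rw [IsLocallyConstant.iff_eventually_eq]
    intro x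
    have h1 : IsOpen {y : G | x⁻¹ * y ∈ V} := hV'.preimage (continuous_const_mul x⁻¹)
    have h2 : x ∈ {y : G | x⁻¹ * y ∈ V} := by
      show x⁻¹ * x ∈ V
      rw [inv_mul_cancel]
      exact V.one_mem
    filter_upwards [h1.mem_nhds h2] with y hy
    have h3 : (QuotientGroup.mk x : G ⧸ V) = QuotientGroup.mk y := QuotientGroup.eq.2 hy
    rw [h3]
  · intro x y
    show f (QuotientGroup.mk (x * y)) = _
    rw [QuotientGroup.mk_mul, hf1']
  · intro x hx
    have h1 : (QuotientGroup.mk x : G ⧸ V) = 1 := (QuotientGroup.eq_one_iff x).2 hx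
    show f (QuotientGroup.mk x : G ⧸ V) = 0
    rw [h1]
    have h2 := hf1' 1 1
    rw [mul_one] at h2
    exact left_eq_add.mp h2

/-- From `exists_dual`, `exists_finset_char` (for `V ⊇ Phi` all `c b` are in `V` but for `b` in the
union of the finite sets `s` belonging to the characters in `T`) and `exists_conv_lift` for
`N₀ = Phi p G`; the new family has the same values of characters. -/
theorem exists_dual_conv (hG : IsProP p G) : ∃ (B : Type) (e : B → G → ZMod p) (c : B → G),
    (∀ b, IsChar p (e b)) ∧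
    (∀ χ : G → ZMod p, IsChar p χ → ∃ (s : Finset B) (a : B → ZMod p),
      ∀ g, χ g = ∑ b ∈ s, a b * e b g) ∧
    (∀ b, e b (c b) = 1) ∧ (∀ b b', b ≠ b' → e b' (c b) = 0) ∧ ConvOne c := by
  classical
  obtain ⟨B, e, c₀, h1, h2, h3, h4⟩ := exists_dual hG
  have hc : ∀ V : Subgroup G, V.Normal → IsOpen (V : Set G) → Phi p G ≤ V → {b | c₀ b ∉ V}.Finite := by
    intro V hV hV' hle
    obtain ⟨T, hT1, hT2⟩ := exists_finset_char hG V hV hV' hle
    have h5 : ∀ χ : G → ZMod p, ∃ s : Finset B, χ ∈ T → ∀ b, b ∉ s → χ (c₀ b) = 0 := by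
      intro χ
      by_cases hχ : χ ∈ T
      · obtain ⟨s, a, hs⟩ := h2 χ (hT1 χ hχ)
        refine ⟨s, fun _ b hb => ?_⟩
        rw [hs]
        refine Finset.sum_eq_zero fun b' hb' => ?_
        rw [h4 b b' (fun he => hb (he ▸ hb')), mul_zero]
      · exact ⟨∅, fun h => absurd h hχ⟩
    choose s hs using h5
    refine Set.Finite.subset (T.biUnion s).finite_toSet ?_
    intro b hb
    by_contra hnb
    apply hb
    apply hT2
    intro χ hχ
    refine hs χ hχ b (fun hbs => hnb ?_)
    rw [Finset.mem_coe, Finset.mem_biUnion]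
    exact ⟨χ, hχ, hbs⟩
  obtain ⟨c, hc1, hc2⟩ := exists_conv_lift hG (Phi p G) Phi_normal Phi_closed c₀ hc
  have h6 : ∀ b b', e b' (c b) = e b' (c₀ b) := by
    intro b b'
    have h7 : e b' ((c₀ b)⁻¹ * c b) = 0 := hc1 b (e b') (h1 b')
    have h8 := (h1 b').mul (c₀ b) ((c₀ b)⁻¹ * c b)
    rw [mul_inv_cancel_left, h7, add_zero] at h8
    exact h8
  refine ⟨B, e, c, h1, h2, fun b => ?_, fun b b' hb => ?_, hc2⟩
  · rw [h6, h3]
  · rw [h6, h4 b b' hb]

end Pool.Agent.MP_6fb7ad_al
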