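import Pool.Agent.MP_6fb7ad_al.B1
import Pool.Agent.MP_6fb7ad_al.B2
import Pool.Agent.MP_6fb7ad_al.C2

/-!
# MP_6fb7ad_al [OR-C3]: minimal presentations
-/

set_option autoImplicit false

namespace Pool.Agent.MP_6fb7ad_al

variable {p : ℕ} [Fact p.Prime] {G : Type} [Group G] [TopologicalSpace G] [IsTopologicalGroup G]

/-- Choose `g ∉ H` and (`exists_sep`) an open normal `W` with `g * w ∉ H` for all `w ∈ W`: the
image of `H` in the finite `p`-group `G ⧸ W` (`quot_fin`) is a proper subgroup, contained in a
maximal subgroup `M` (`IsCoatom`), which is normal since finite `p`-groups are nilpotent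
(`IsPGroup.isNilpotent`, `Subgroup.NormalizerCondition.normal_of_coatom`,
`normalizerCondition_of_isNilpotent`) and of index `p` (the quotient is a simple finite `p`-group;
`IsPGroup`: a nontrivial finite `p`-group has a subgroup of index... or: the quotient has no proper
nontrivial subgroup, so it is cyclic of prime order `isSimpleGroup`/`Nat.card` prime, and its order
is a power of `p`). So `(G ⧸ W) ⧸ M` is isomorphic to `ZMod p` (`zmodCyclicMulEquiv` or
`mulEquivOfPrimeCardEq`). -/
theorem exists_char (hG : IsProP p G) (H : Subgroup G) (hH : IsClosed (H : Set G)) (hne : H ≠ ⊤) :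
    ∃ χ : G → ZMod p, IsChar p χ ∧ (∀ g ∈ H, χ g = 0) ∧ ∃ g, χ g ≠ 0 := by
  obtain ⟨g, hg⟩ : ∃ g, g ∉ H := by
    by_contra hcon
    push Not at hcon
    exact hne ((Subgroup.eq_top_iff' H).2 hcon)
  obtain ⟨W, hWn, hWo, hW⟩ := exists_sep hG H hH g hg
  obtain ⟨hfin, hpg⟩ := quot_fin hG W hWo
  have hdisc : DiscreteTopology (G ⧸ W) := QuotientGroup.discreteTopology hWo
  have hq : Continuous (QuotientGroup.mk' W) := QuotientGroup.continuous_mk
  -- the image of `H` is proper
  have hH' : H.map (QuotientGroup.mk' W) ≠ ⊤ := by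
    intro htop
    have h1 : QuotientGroup.mk' W g ∈ H.map (QuotientGroup.mk' W) := by
      rw [htop]
      exact Subgroup.mem_top _
    obtain ⟨h, hh, hhg⟩ := Subgroup.mem_map.1 h1
    have h2 : g⁻¹ * h ∈ W := QuotientGroup.eq.1 (hhg.symm)
    have h3 := hW _ h2
    rw [mul_inv_cancel_left] at h3
    exact h3 hh
  obtain ⟨M, hM, hHM⟩ := (eq_top_or_exists_le_coatom (H.map (QuotientGroup.mk' W))).resolve_left hH'
  have hnil : Group.IsNilpotent (G ⧸ W) := hpg.isNilpotent
  have hMn : M.Normal := Subgroup.NormalizerCondition.normal_of_coatom M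
    Group.normalizerCondition_of_isNilpotent hM
  -- the index of `M` is `p`
  have hp : p.Prime := Fact.out
  obtain ⟨k, hk⟩ := IsPGroup.iff_card.1 hpg
  obtain ⟨n, hn⟩ := IsPGroup.iff_card.1 (hpg.to_subgroup M)
  have hnk : n < k := by
    have h1 : Nat.card M < Nat.card (G ⧸ W) := by
      rcases lt_or_eq_of_le (Subgroup.card_le_card_group M) with h2 | h2
      · exact h2
      · exact absurd (Subgroup.eq_top_of_card_eq M h2) hM.1
    rw [hn, hk] at h1
    exact (Nat.pow_lt_pow_iff_right hp.one_lt).1 h1
  obtain ⟨K, hK, hMK⟩ := Sylow.exists_subgroup_card_pow_succ (G := G ⧸ W) (p := p) (n := n)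
    (by rw [hk]; exact pow_dvd_pow p hnk) hn
  have hKtop : K = ⊤ := by
    apply hM.2
    refine lt_of_le_of_ne hMK fun heq => ?_
    rw [heq, hK] at hn
    have := Nat.pow_right_injective hp.two_le hn
    omega
  have hcard : Nat.card ((G ⧸ W) ⧸ M) = p := by
    have h1 := Subgroup.card_eq_card_quotient_mul_card_subgroup M
    rw [hKtop, Subgroup.card_top] at hK
    rw [hK, hn, pow_succ'] at h1
    exact (Nat.eq_of_mul_eq_mul_right (pow_pos hp.pos n) h1).symm
  have hcard' : Nat.card (Multiplicative (ZMod p)) = p := by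
    rw [Nat.card_congr Multiplicative.toAdd, Nat.card_zmod]
  let ψ : ((G ⧸ W) ⧸ M) ≃* Multiplicative (ZMod p) := mulEquivOfPrimeCardEq hcard hcard'
  let χ : G → ZMod p := fun g =>
    Multiplicative.toAdd (ψ (QuotientGroup.mk' M (QuotientGroup.mk' W g)))
  refine ⟨χ, ⟨?_, fun a b => ?_⟩, fun h hh => ?_, ?_⟩
  · exact (IsLocallyConstant.of_discrete
      (fun x : G ⧸ W => Multiplicative.toAdd (ψ (QuotientGroup.mk' M x)))).comp_continuous hq
  · show Multiplicative.toAdd (ψ (QuotientGroup.mk' M (QuotientGroup.mk' W (a * b)))) = _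
    rw [map_mul, map_mul, map_mul, toAdd_mul]
  · have h1 : QuotientGroup.mk' W h ∈ M := hHM (Subgroup.mem_map_of_mem _ hh)
    have h2 : QuotientGroup.mk' M (QuotientGroup.mk' W h) = 1 :=
      (QuotientGroup.eq_one_iff _).2 h1
    show Multiplicative.toAdd (ψ (QuotientGroup.mk' M (QuotientGroup.mk' W h))) = 0
    rw [h2, map_one, toAdd_one]
  · obtain ⟨x, hx⟩ : ∃ x, x ∉ M := by
      by_contra hcon
      push Not at hcon
      exact hM.1 ((Subgroup.eq_top_iff' M).2 hcon)
    obtain ⟨y, rfl⟩ := QuotientGroup.mk'_surjective W x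
    refine ⟨y, fun h0 => hx ?_⟩
    have h1 : ψ (QuotientGroup.mk' M (QuotientGroup.mk' W y)) = 1 := by
      rw [← toAdd_eq_zero]
      exact h0
    have h2 : QuotientGroup.mk' M (QuotientGroup.mk' W y) = 1 := by
      rw [← map_one ψ] at h1
      exact ψ.injective h1
    exact (QuotientGroup.eq_one_iff _).1 h2

/-- Take `B, e, c` from `exists_dual_conv`, `F = Fr p B`, `i = bas p B`
(`exists_freeFin`, `IsFreeFin.free`) and `π` from `univ` with `π (i b) = c b`. Surjective: the
range `H` of `π` is closed (compact); if `H ≠ ⊤` take `χ` from `exists_char`; `χ = ∑ a b * e b`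
(over `s`) and `χ (c b) = 0` gives `a b = 0` for all `b ∈ s`, so `χ = 0`, contradiction.
Minimal: let `χ` be a character of `F`. The set of `b` with `χ (i b) ≠ 0` is finite (the kernel of
`χ` is an open subgroup); with `ψ = ∑ χ (i b) * e b` over this set, `ψ ∘ π` and `χ` are continuous
characters that agree on the `i b`, so they are equal (uniqueness in `univ` for
`P = Multiplicative (ZMod p)`, or density `exists_freeFin.dense`), and `χ g = ψ (π g) = 0` for
`g ∈ π.ker`. -/
theorem exists_min (hG : IsProP p G) : ∃ (X F : Type) (_ : Group F) (_ : TopologicalSpace F)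
    (_ : IsTopologicalGroup F) (i : X → F) (π : F →* G), IsFreeProP p i ∧ Continuous π ∧
    Function.Surjective π ∧ ∀ χ : F → ZMod p, IsChar p χ → ∀ g ∈ π.ker, χ g = 0 := by
  classical
  obtain ⟨B, e, c, he, hspan, h1, h0, hconv⟩ := exists_dual_conv (p := p) hG
  have hff := exists_freeFin p B
  have hfree : IsFreeProP p (bas p B) := hff.free
  obtain ⟨π, ⟨hπc, hπi⟩, -⟩ := hfree.univ G hG c hconv
  refine ⟨B, Fr p B, inferInstance, inferInstance, inferInstance, bas p B, π, hfree, hπc, ?_, ?_⟩
  · by_contra hns
    have hne : π.range ≠ ⊤ := fun h => hns (MonoidHom.range_eq_top.mp h)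
    have hcl : IsClosed (π.range : Set G) := by
      have := hfree.proP.compact
      have := hG.t2
      have h2 : ((π.range : Subgroup G) : Set G) = Set.range π := MonoidHom.coe_range π
      rw [h2]
      exact (isCompact_range hπc).isClosed
    obtain ⟨χ, hχ, hχ0, g, hg⟩ := exists_char hG π.range hcl hne
    obtain ⟨s, a, hsa⟩ := hspan χ hχ
    apply hg
    rw [hsa]
    refine Finset.sum_eq_zero fun b hb => ?_
    have h3 : χ (c b) = 0 := hχ0 _ ⟨bas p B b, hπi b⟩
    rw [hsa, Finset.sum_eq_single b] at h3
    · rw [h1, mul_one] at h3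
      rw [h3, zero_mul]
    · intro b' _ hb'
      rw [h0 b b' (Ne.symm hb'), mul_zero]
    · intro hb'
      exact absurd hb hb'
  · intro χ hχ g hg
    have c3b_one : χ 1 = 0 := by
      have h := hχ.mul 1 1
      rw [mul_one] at h
      exact left_eq_add.mp h
    let K : Subgroup (Fr p B) :=
      { carrier := {x | χ x = 0}
        mul_mem' := by
          intro x y hx hy
          have hx' : χ x = 0 := hx
          have hy' : χ y = 0 := hy
          show χ (x * y) = 0
          rw [hχ.mul, hx', hy', add_zero]
        one_mem' := c3b_one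
        inv_mem' := by
          intro x hx
          have hx' : χ x = 0 := hx
          have h := hχ.mul x x⁻¹
          rw [mul_inv_cancel, c3b_one, hx', zero_add] at h
          exact h.symm }
    have hK : IsOpen (K : Set (Fr p B)) := hχ.lc.isOpen_fiber 0
    have hfin : {b | bas p B b ∉ K}.Finite := bas_conv p B K hK
    let S : Finset B := hfin.toFinset
    let ψ : G → ZMod p := fun x => ∑ b ∈ S, χ (bas p B b) * e b x
    have hψmul : ∀ x y, ψ (x * y) = ψ x + ψ y := by
      intro x y
      simp only [ψ]
      rw [← Finset.sum_add_distrib]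
      refine Finset.sum_congr rfl fun b _ => ?_
      rw [(he b).mul, mul_add]
    have hψlc : IsLocallyConstant ψ := by
      refine Tr.lc_sum S (fun b x => χ (bas p B b) * e b x) fun b _ => ?_
      exact (he b).lc.comp fun y => χ (bas p B b) * y
    have hψone : ψ 1 = 0 := by
      have h := hψmul 1 1
      rw [mul_one] at h
      exact left_eq_add.mp h
    let E : Subgroup (Fr p B) :=
      { carrier := {x | ψ (π x) = χ x}
        mul_mem' := by
          intro x y hx hy
          have hx' : ψ (π x) = χ x := hx
          have hy' : ψ (π y) = χ y := hy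
          show ψ (π (x * y)) = χ (x * y)
          rw [map_mul, hψmul, hχ.mul, hx', hy']
        one_mem' := by
          show ψ (π 1) = χ 1
          rw [map_one, hψone, c3b_one]
        inv_mem' := by
          intro x hx
          have hx' : ψ (π x) = χ x := hx
          show ψ (π x⁻¹) = χ x⁻¹
          have h := hχ.mul x x⁻¹
          rw [mul_inv_cancel, c3b_one] at h
          have h' := hψmul (π x) (π x)⁻¹
          rw [mul_inv_cancel, hψone] at h'
          rw [map_inv, eq_neg_of_add_eq_zero_right h.symm,
            eq_neg_of_add_eq_zero_right h'.symm, hx'] }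
    have hE : ∀ b, bas p B b ∈ E := by
      intro b
      show ψ (π (bas p B b)) = χ (bas p B b)
      rw [hπi]
      simp only [ψ]
      by_cases hb : b ∈ S
      · rw [Finset.sum_eq_single b]
        · rw [h1, mul_one]
        · intro b' _ hb'
          rw [h0 b b' (Ne.symm hb'), mul_zero]
        · intro hb'
          exact absurd hb hb'
      · have h4 : χ (bas p B b) = 0 := by
          by_contra h5
          exact hb (hfin.mem_toFinset.mpr h5)
        rw [h4]
        refine Finset.sum_eq_zero fun b' hb' => ?_
        have hbb : b ≠ b' := by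
          rintro rfl
          exact hb hb'
        rw [h0 b b' hbb, mul_zero]
    have hEcl : IsClosed (E : Set (Fr p B)) := by
      have h6 : IsLocallyConstant fun x : Fr p B => ψ (π x) - χ x :=
        (hψlc.comp_continuous hπc).sub hχ.lc
      have h7 : (E : Set (Fr p B)) = (fun x : Fr p B => ψ (π x) - χ x) ⁻¹' {0} := by
        ext x
        show ψ (π x) = χ x ↔ ψ (π x) - χ x = 0
        exact sub_eq_zero.symm
      rw [h7]
      exact h6.isClosed_fiber 0
    have hEtop : ∀ x, x ∈ E := by
      intro x
      have h8 : (Subgroup.closure (Set.range (bas p B)) : Set (Fr p B)) ⊆ (E : Set (Fr p B)) := by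
        have h9 : Subgroup.closure (Set.range (bas p B)) ≤ E := by
          rw [Subgroup.closure_le]
          rintro _ ⟨b, rfl⟩
          exact hE b
        exact h9
      have h10 := (hEcl.closure_subset_iff.mpr h8)
      exact h10 ((bas_dense p B) x)
    have h11 : ψ (π g) = χ g := hEtop g
    rw [← h11, MonoidHom.mem_ker.mp hg, hψone]

end Pool.Agent.MP_6fb7ad_al
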