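import Pool.Agent.MP_6fb7ad_al.Cores

/-!
# MP_6fb7ad_al: one step of the chain, chains
-/

set_option autoImplicit false

namespace Pool.Agent.MP_6fb7ad_al

section Rank

variable {p : ℕ} [Fact p.Prime] {G : Type*} [Group G] [TopologicalSpace G] [IsTopologicalGroup G]
  {U : Subgroup G} {T : Tr p U}

theorem Li.rank_le (L : Li T) :
    Module.rank (ZMod p) (H2 p G) ≤ Module.rank (ZMod p) (H2 p U) := by
  rw [← LinearMap.rank_range_add_rank_ker T.res, ← LinearMap.rank_range_add_rank_ker T.cor,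
    add_comm]
  refine add_le_add (Submodule.rank_mono L.ker_le) (Submodule.rank_mono ?_)
  rintro _ ⟨x, rfl⟩
  exact T.cor_res x

end Rank

section Arith

variable {p : ℕ} [Fact p.Prime]

/-- division by `p` of a residue class modulo `p ^ 2` -/
def dv (y : ZMod (p ^ 2)) : ZMod p := ((y.val / p : ℕ) : ZMod p)

theorem dv_nat (n : ℕ) : dv (((p * n : ℕ) : ZMod (p ^ 2))) = (n : ZMod p) := by
  have hp : 0 < p := (Fact.out : p.Prime).pos
  unfold dv
  rw [ZMod.val_natCast, pow_two, Nat.mul_mod_mul_left, Nat.mul_div_cancel_left _ hp,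
    ZMod.natCast_mod]

theorem dv_int (n : ℤ) : dv (((p * n : ℤ) : ZMod (p ^ 2))) = (n : ZMod p) := by
  obtain ⟨k, hk⟩ : ∃ k : ℕ, (n : ℤ) ≡ k [ZMOD p] := by
    refine ⟨(n % p).toNat, ?_⟩
    have hp : (0 : ℤ) < p := by exact_mod_cast (Fact.out : p.Prime).pos
    rw [Int.toNat_of_nonneg (Int.emod_nonneg _ hp.ne')]
    exact (Int.mod_modEq _ _).symm
  have h1 : (n : ZMod p) = (k : ZMod p) := by
    have := (ZMod.intCast_eq_intCast_iff n k p).2 hk
    rw [this, Int.cast_natCast]
  have h2 : ((p * n : ℤ) : ZMod (p ^ 2)) = ((p * k : ℕ) : ZMod (p ^ 2)) := by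
    have h3 : ((p * n : ℤ) : ZMod (p ^ 2)) = ((p * k : ℤ) : ZMod (p ^ 2)) := by
      rw [ZMod.intCast_eq_intCast_iff]
      have h4 := Int.ModEq.mul_left' (c := (p : ℤ)) hk
      push_cast
      rw [pow_two]
      exact h4
    rw [h3]
    push_cast
    ring
  rw [h2, dv_nat, h1]

omit [Fact p.Prime] in
theorem dvd_sq : p ∣ p ^ 2 := dvd_pow_self p two_ne_zero

theorem exists_int (y : ZMod (p ^ 2)) (h : ZMod.castHom (dvd_sq (p := p)) (ZMod p) y = 0) :
    ∃ n : ℤ, y = ((p * n : ℤ) : ZMod (p ^ 2)) := by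
  have hp : p ≠ 0 := (Fact.out : p.Prime).ne_zero
  have hne : NeZero (p ^ 2) := ⟨pow_ne_zero 2 hp⟩
  have h1 : ((y.val : ℕ) : ZMod p) = 0 := by
    rw [← h, ← ZMod.natCast_zmod_val y, map_natCast, ZMod.natCast_zmod_val]
  rw [ZMod.natCast_eq_zero_iff] at h1
  obtain ⟨n, hn⟩ := h1
  refine ⟨n, ?_⟩
  rw [← ZMod.natCast_zmod_val y, hn]
  push_cast
  rfl

theorem mul_p_eq_zero_iff (y : ZMod (p ^ 2)) :
    p • y = 0 ↔ ZMod.castHom (dvd_sq (p := p)) (ZMod p) y = 0 := by
  have hp : p ≠ 0 := (Fact.out : p.Prime).ne_zero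
  have hne : NeZero (p ^ 2) := ⟨pow_ne_zero 2 hp⟩
  constructor
  · intro h
    have h1 : ((p * y.val : ℕ) : ZMod (p ^ 2)) = 0 := by
      rw [Nat.cast_mul, ZMod.natCast_zmod_val, ← nsmul_eq_mul]
      exact h
    rw [ZMod.natCast_eq_zero_iff] at h1
    have h2 : p ∣ y.val := by
      obtain ⟨k, hk⟩ := h1
      refine ⟨k, Nat.eq_of_mul_eq_mul_left (Nat.pos_of_ne_zero hp) ?_⟩
      rw [hk]
      ring
    rw [← ZMod.natCast_zmod_val y, map_natCast]
    exact (ZMod.natCast_eq_zero_iff _ _).2 h2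
  · intro h
    obtain ⟨n, rfl⟩ := exists_int y h
    have h1 : p • ((p * n : ℤ) : ZMod (p ^ 2)) = ((p ^ 2 * n : ℤ) : ZMod (p ^ 2)) := by
      rw [nsmul_eq_mul]
      push_cast
      ring
    rw [h1]
    push_cast
    have h2 : ((p : ZMod (p ^ 2))) ^ 2 = 0 := by
      have := ZMod.natCast_self (p ^ 2)
      rwa [Nat.cast_pow] at this
    rw [h2, zero_mul]

theorem val_succ (j : ZMod p) : ((j + 1).val : ℤ) = j.val + 1 - p * (if j + 1 = 0 then 1 else 0) := by
  have hp : 1 < p := (Fact.out : p.Prime).one_lt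
  have hne : NeZero p := ⟨(Fact.out : p.Prime).ne_zero⟩
  have h1 : (1 : ZMod p).val = 1 := by
    have : Fact (1 < p) := ⟨hp⟩
    exact ZMod.val_one p
  have hj := ZMod.val_lt j
  split_ifs with h
  · rw [h, ZMod.val_zero]
    have h2 : ((j.val + 1 : ℕ) : ZMod p) = 0 := by
      rw [Nat.cast_add, ZMod.natCast_zmod_val, Nat.cast_one, h]
    rw [ZMod.natCast_eq_zero_iff] at h2
    have h3 : p ≤ j.val + 1 := Nat.le_of_dvd (Nat.succ_pos _) h2
    have h4 : j.val + 1 = p := by omega
    have h5 : (j.val : ℤ) + 1 = p := by exact_mod_cast h4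
    push_cast
    linarith
  · have h2 : j.val + 1 < p := by
      rcases Nat.lt_or_ge (j.val + 1) p with h3 | h3
      · exact h3
      · exfalso
        apply h
        have h4 : j.val + 1 = p := by omega
        have h5 : ((j.val + 1 : ℕ) : ZMod p) = 0 := by rw [h4]; exact ZMod.natCast_self p
        rwa [Nat.cast_add, ZMod.natCast_zmod_val, Nat.cast_one] at h5
    have h3 : (j + 1).val = j.val + 1 := by
      rw [ZMod.val_add, h1, Nat.mod_eq_of_lt h2]
    rw [h3]
    push_cast
    ring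

end Arith

section Step

variable {p : ℕ} [Fact p.Prime] {G : Type*} [Group G] [TopologicalSpace G]

/-- the transversal attached to a character to `ZMod (p ^ 2)` and an element with value `1` -/
noncomputable def trOf (U : Subgroup G) (c : G → ZMod (p ^ 2)) (hc : ∀ g h, c (g * h) = c g + c h)
    (hl : IsLocallyConstant c) (hU : ∀ g, g ∈ U ↔ p • c g = 0) (x : G) (hx : c x = 1) : Tr p U where
  a g := ZMod.castHom (dvd_sq (p := p)) (ZMod p) (c g)
  mul g h := by rw [hc, map_add]
  lc := hl.comp _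
  mem g := by rw [hU, mul_p_eq_zero_iff]
  s i := x ^ i.val
  s0 := by rw [ZMod.val_zero, pow_zero]
  as i := by
    have hne : NeZero p := ⟨(Fact.out : p.Prime).ne_zero⟩
    have h1 : ∀ n : ℕ, c (x ^ n) = n := by
      intro n
      induction n with
      | zero =>
        have h2 := hc 1 1
        rw [mul_one] at h2
        rw [pow_zero, Nat.cast_zero]
        exact left_eq_add.mp h2
      | succ n ih => rw [pow_succ x n, hc, ih, hx, Nat.cast_succ]
    rw [h1, map_natCast, ZMod.natCast_zmod_val]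

omit [Fact p.Prime] [TopologicalSpace G] in
theorem cx_pow {c : G → ZMod (p ^ 2)} (hc : ∀ g h, c (g * h) = c g + c h) {x : G} (hx : c x = 1)
    (n : ℕ) : c (x ^ n) = n := by
  induction n with
  | zero =>
    have h2 := hc 1 1
    rw [mul_one] at h2
    rw [pow_zero, Nat.cast_zero]
    exact left_eq_add.mp h2
  | succ n ih => rw [pow_succ x n, hc, ih, hx, Nat.cast_succ]

omit [Fact p.Prime] [TopologicalSpace G] in
theorem c_inv {c : G → ZMod (p ^ 2)} (hc : ∀ g h, c (g * h) = c g + c h) (g : G) :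
    c g⁻¹ = - c g := by
  have h1 := hc 1 1
  rw [mul_one] at h1
  have h2 : c 1 = 0 := left_eq_add.mp h1
  have h3 := hc g g⁻¹
  rw [mul_inv_cancel, h2] at h3
  exact (neg_eq_of_add_eq_zero_right h3.symm).symm

/-- the lifting data of `trOf` -/
noncomputable def liOf (U : Subgroup G) (c : G → ZMod (p ^ 2)) (hc : ∀ g h, c (g * h) = c g + c h)
    (hl : IsLocallyConstant c) (hU : ∀ g, g ∈ U ↔ p • c g = 0) (x : G) (hx : c x = 1) :
    Li (trOf U c hc hl hU x hx) where
  κ g := dv (c g)
  lc := (hl.comp dv).comp_continuous continuous_subtype_val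
  mul g h := by
    have hg := (mul_p_eq_zero_iff _).1 ((hU g).1 g.2)
    have hh := (mul_p_eq_zero_iff _).1 ((hU h).1 h.2)
    obtain ⟨m, hm⟩ := exists_int _ hg
    obtain ⟨n, hn⟩ := exists_int _ hh
    have h1 : c ((g * h : U) : G) = ((p * (m + n) : ℤ) : ZMod (p ^ 2)) := by
      rw [Subgroup.coe_mul, hc, hm, hn]
      push_cast
      ring
    rw [h1, hm, hn, dv_int, dv_int, dv_int, Int.cast_add]
  key i g := by
    have hne2 : NeZero (p ^ 2) := ⟨pow_ne_zero 2 (Fact.out : p.Prime).ne_zero⟩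
    -- values of `c` on `u i g`
    have hu : ∀ j : ZMod p, c (((trOf U c hc hl hU x hx).u j g : U) : G) =
        (((j.val : ℤ) + (c g).val - ((j + (trOf U c hc hl hU x hx).a g).val : ℤ) : ℤ) :
          ZMod (p ^ 2)) := by
      intro j
      have h1 : (((trOf U c hc hl hU x hx).u j g : U) : G) =
          x ^ j.val * g * (x ^ (j + (trOf U c hc hl hU x hx).a g).val)⁻¹ := rfl
      rw [h1, hc, hc, c_inv hc, cx_pow hc hx, cx_pow hc hx]
      push_cast
      rw [ZMod.natCast_zmod_val]
      ring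
    obtain ⟨m, hm⟩ := exists_int _
      ((mul_p_eq_zero_iff _).1 ((hU _).1 ((trOf U c hc hl hU x hx).u i g).2))
    have h2 : c (((trOf U c hc hl hU x hx).u (i + 1) g : U) : G) =
        ((p * (m - ((if i + 1 = 0 then 1 else 0) -
          (if i + 1 + (trOf U c hc hl hU x hx).a g = 0 then 1 else 0))) : ℤ) : ZMod (p ^ 2)) := by
      have h3 := hu i
      rw [hm] at h3
      have h4 : i + 1 + (trOf U c hc hl hU x hx).a g = i + (trOf U c hc hl hU x hx).a g + 1 := by
        ring
      have h5 : ((p * m : ℤ) : ZMod (p ^ 2)) = (p * m : ZMod (p ^ 2)) := by push_cast; rfl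
      rw [hu, h4, val_succ i, val_succ (i + (trOf U c hc hl hU x hx).a g)]
      push_cast
      push_cast at h3
      rw [mul_sub, h3]
      ring
    rw [hm, h2, dv_int, dv_int]
    push_cast
    ring

/-- the main step, for a character of the whole group -/
theorem rank_le_ker [IsTopologicalGroup G] (U : Subgroup G)
    (χ : G →* Multiplicative (ZMod (p ^ 2))) (hl : IsLocallyConstant χ)
    (hs : Function.Surjective χ) (hU : ∀ g, g ∈ U ↔ χ g ^ p = 1) :
    Module.rank (ZMod p) (H2 p G) ≤ Module.rank (ZMod p) (H2 p U) := by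
  obtain ⟨x, hx⟩ := hs (Multiplicative.ofAdd 1)
  have hc : ∀ g h, (fun g => (χ g).toAdd) (g * h) = (fun g => (χ g).toAdd) g +
      (fun g => (χ g).toAdd) h := by
    intro g h
    simp only [map_mul, toAdd_mul]
  have hU' : ∀ g, g ∈ U ↔ p • (fun g => (χ g).toAdd) g = 0 := by
    intro g
    rw [hU]
    constructor
    · intro h
      have h1 := congrArg Multiplicative.toAdd h
      rwa [toAdd_pow, toAdd_one] at h1
    · intro h
      apply Multiplicative.toAdd.injective
      rw [toAdd_pow, toAdd_one]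
      exact h
  exact (liOf U (fun g => (χ g).toAdd) hc (hl.comp Multiplicative.toAdd) hU' x
    (by simp only [hx, toAdd_ofAdd])).rank_le

end Step

section Chains

variable {p : ℕ} {G : Type*} [Group G] [TopologicalSpace G]

theorem pull_pull {H K : Type*} [Group H] [TopologicalSpace H] [Group K] [TopologicalSpace K]
    (i : H →* G) (hi : Continuous i) (j : K →* H) (hj : Continuous j) (x : H2 p G) :
    pull j hj (pull i hi x) = pull (i.comp j) (hi.comp hj) x := by
  obtain ⟨f, rfl⟩ := Submodule.Quotient.mk_surjective _ x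
  rfl

theorem pull_id (x : H2 p G) (i : G →* G) (hi : Continuous i) (h : ∀ g, i g = g) :
    pull i hi x = x := by
  have h1 : i = MonoidHom.id G := MonoidHom.ext h
  subst h1
  obtain ⟨f, rfl⟩ := Submodule.Quotient.mk_surjective _ x
  rfl

/-- `U` is the kernel of the composite of a continuous surjective homomorphism
`V → ℤ / p ^ 2` with the projection to `ℤ / p`. -/
def LiftStep (p : ℕ) (V U : Subgroup G) : Prop :=
  U ≤ V ∧ ∃ χ : V →* Multiplicative (ZMod (p ^ 2)), IsLocallyConstant χ ∧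
    Function.Surjective χ ∧ ∀ v : V, (v : G) ∈ U ↔ χ v ^ p = 1

theorem rank_step [Fact p.Prime] [IsTopologicalGroup G] {V U : Subgroup G}
    (h : LiftStep p V U) : Module.rank (ZMod p) (H2 p V) ≤ Module.rank (ZMod p) (H2 p U) := by
  obtain ⟨hUV, χ, hl, hs, hU⟩ := h
  have h1 : Module.rank (ZMod p) (H2 p V) ≤ Module.rank (ZMod p) (H2 p (U.subgroupOf V)) :=
    rank_le_ker (U.subgroupOf V) χ hl hs fun g => by
      rw [Subgroup.mem_subgroupOf]
      exact hU g
  refine h1.trans ?_
  have hc1 : Continuous (Subgroup.subgroupOfEquivOfLe hUV).symm.toMonoidHom := by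
    refine Continuous.subtype_mk ?_ _
    exact Continuous.subtype_mk continuous_subtype_val _
  have hc2 : Continuous (Subgroup.subgroupOfEquivOfLe hUV).toMonoidHom :=
    Continuous.subtype_mk (continuous_subtype_val.comp continuous_subtype_val) _
  refine LinearMap.rank_le_of_injective
    (pull (p := p) (Subgroup.subgroupOfEquivOfLe hUV).symm.toMonoidHom hc1) ?_
  refine Function.LeftInverse.injective
    (g := pull (p := p) (Subgroup.subgroupOfEquivOfLe hUV).toMonoidHom hc2) ?_
  intro x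
  rw [pull_pull]
  refine pull_id _ _ _ fun g => ?_
  exact (Subgroup.subgroupOfEquivOfLe hUV).symm_apply_apply g

theorem rank_chain [Fact p.Prime] [IsTopologicalGroup G] {V U : Subgroup G}
    (h : Relation.ReflTransGen (LiftStep p) V U) :
    Module.rank (ZMod p) (H2 p V) ≤ Module.rank (ZMod p) (H2 p U) := by
  induction h with
  | refl => exact le_rfl
  | tail _ h2 ih => exact ih.trans (rank_step h2)

end Chains

end Pool.Agent.MP_6fb7ad_al
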