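import Mathlib

/-!
# MP_6fb7ad_al: the second cohomology group with coefficients in `ZMod p`

Locally constant cochains, restriction and corestriction for a kernel of a character to `ZMod p`
that lifts to `ZMod (p ^ 2)`.
-/

set_option autoImplicit false

namespace Pool.Agent.MP_6fb7ad_al

/-- The locally constant (that is, continuous for the discrete topology on `ZMod p`) `2`-cocycles
of `G` with values in `ZMod p` (trivial action). -/
def Z2 (p : ℕ) (G : Type*) [Group G] [TopologicalSpace G] :
    Submodule (ZMod p) (G → G → ZMod p) where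
  carrier := {f | IsLocallyConstant (fun x : G × G => f x.1 x.2) ∧
    ∀ g h k, f h k + f g (h * k) = f (g * h) k + f g h}
  add_mem' := by
    rintro f f' ⟨h1, h2⟩ ⟨h1', h2'⟩
    refine ⟨h1.add h1', fun g h k => ?_⟩
    have := h2 g h k
    have := h2' g h k
    simp only [Pi.add_apply]
    linear_combination h2 g h k + h2' g h k
  zero_mem' := ⟨IsLocallyConstant.const 0, fun g h k => by simp⟩
  smul_mem' := by
    rintro c f ⟨h1, h2⟩
    refine ⟨h1.comp (fun y => c * y), fun g h k => ?_⟩
    simp only [Pi.smul_apply, smul_eq_mul]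
    linear_combination c * h2 g h k

/-- The `2`-coboundaries: the functions `φ g + φ h - φ (g * h)` with `φ` locally constant. -/
def B2 (p : ℕ) (G : Type*) [Group G] [TopologicalSpace G] :
    Submodule (ZMod p) (G → G → ZMod p) where
  carrier := {f | ∃ φ : G → ZMod p, IsLocallyConstant φ ∧
    ∀ g h, f g h = φ g + φ h - φ (g * h)}
  add_mem' := by
    rintro f f' ⟨φ, h1, h2⟩ ⟨φ', h1', h2'⟩
    refine ⟨φ + φ', h1.add h1', fun g h => ?_⟩
    simp only [Pi.add_apply]
    linear_combination h2 g h + h2' g h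
  zero_mem' := ⟨0, IsLocallyConstant.const 0, fun g h => by simp⟩
  smul_mem' := by
    rintro c f ⟨φ, h1, h2⟩
    refine ⟨c • φ, h1.comp (fun y => c * y), fun g h => ?_⟩
    simp only [Pi.smul_apply, smul_eq_mul]
    linear_combination c * h2 g h

/-- The continuous cohomology group `H²(G, ZMod p)`: locally constant `2`-cocycles modulo
coboundaries of locally constant `1`-cochains. -/
abbrev H2 (p : ℕ) (G : Type*) [Group G] [TopologicalSpace G] : Type _ :=
  ↥(Z2 p G) ⧸ (B2 p G).submoduleOf (Z2 p G)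

section Maps

variable {p : ℕ} {G : Type*} [Group G] [TopologicalSpace G]
variable {H : Type*} [Group H] [TopologicalSpace H]

/-- Pullback of cocycles along a continuous homomorphism. -/
def pullZ (i : H →* G) (hi : Continuous i) : ↥(Z2 p G) →ₗ[ZMod p] ↥(Z2 p H) where
  toFun f := ⟨fun g h => f.1 (i g) (i h), by
    obtain ⟨f, h1, h2⟩ := f
    refine ⟨h1.comp_continuous (f := fun x : H × H => (i x.1, i x.2)) (by fun_prop), ?_⟩
    intro g h k
    simp only [map_mul]
    exact h2 _ _ _⟩
  map_add' f g := rfl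
  map_smul' c f := rfl

theorem pullZ_mem (i : H →* G) (hi : Continuous i) :
    (B2 p G).submoduleOf (Z2 p G) ≤ ((B2 p H).submoduleOf (Z2 p H)).comap (pullZ i hi) := by
  rintro ⟨f, hf⟩ ⟨φ, h1, h2⟩
  refine ⟨fun h => φ (i h), h1.comp_continuous hi, fun g h => ?_⟩
  have h3 := h2 (i g) (i h)
  show f (i g) (i h) = φ (i g) + φ (i h) - φ (i (g * h))
  rw [map_mul]
  exact h3

/-- Pullback on `H²`. -/
def pull (i : H →* G) (hi : Continuous i) : H2 p G →ₗ[ZMod p] H2 p H :=
  Submodule.mapQ _ _ (pullZ i hi) (pullZ_mem i hi)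

end Maps

/-- A transversal of the kernel `U` of a locally constant character `a : G → ZMod p`. -/
structure Tr (p : ℕ) {G : Type*} [Group G] [TopologicalSpace G] (U : Subgroup G) where
  /-- the character -/
  a : G → ZMod p
  mul : ∀ g h, a (g * h) = a g + a h
  lc : IsLocallyConstant a
  mem : ∀ g, g ∈ U ↔ a g = 0
  /-- the transversal -/
  s : ZMod p → G
  s0 : s 0 = 1
  as : ∀ i, a (s i) = i

namespace Tr

variable {p : ℕ} {G : Type*} [Group G] [TopologicalSpace G] {U : Subgroup G} (T : Tr p U)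
include T

theorem a_one : T.a 1 = 0 := by
  have := T.mul 1 1
  rw [mul_one] at this
  exact left_eq_add.mp this

theorem a_inv (g : G) : T.a g⁻¹ = - T.a g := by
  have := T.mul g g⁻¹
  rw [mul_inv_cancel, T.a_one] at this
  exact (neg_eq_of_add_eq_zero_right this.symm).symm

/-- The element `s i * g * (s (i + a g))⁻¹` of `U`. -/
def u (i : ZMod p) (g : G) : U :=
  ⟨T.s i * g * (T.s (i + T.a g))⁻¹, by
    rw [T.mem, T.mul, T.mul, T.a_inv, T.as, T.as]
    ring⟩

theorem u_mul (i : ZMod p) (g h : G) : T.u i (g * h) = T.u i g * T.u (i + T.a g) h := by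
  apply Subtype.ext
  simp only [u, Subgroup.coe_mul, T.mul, ← add_assoc]
  group

theorem u_cont [IsTopologicalGroup G] (i : ZMod p) : Continuous (T.u i) := by
  unfold u
  refine Continuous.subtype_mk ?_ _
  have h1 : Continuous fun g => T.s (i + T.a g) := (T.lc.comp fun j => T.s (i + j)).continuous
  exact (continuous_const.mul continuous_id).mul h1.inv

variable [Fact p.Prime] [IsTopologicalGroup G]

omit [Group G] [TopologicalSpace G] T [IsTopologicalGroup G] in
theorem lc_sum {X : Type*} [TopologicalSpace X] {ι : Type*} (A : Finset ι) (F : ι → X → ZMod p)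
    (hF : ∀ i ∈ A, IsLocallyConstant (F i)) : IsLocallyConstant fun x => ∑ i ∈ A, F i x := by
  classical
  induction A using Finset.induction_on with
  | empty =>
    simp only [Finset.sum_empty]
    exact IsLocallyConstant.const (0 : ZMod p)
  | insert i A hi ih =>
    simp only [Finset.sum_insert hi]
    exact (hF i (Finset.mem_insert_self _ _)).add
      (ih fun j hj => hF j (Finset.mem_insert_of_mem hj))

theorem lc_u (φ : U → U → ZMod p) (hφ : IsLocallyConstant fun x : U × U => φ x.1 x.2)
    (i : ZMod p) :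
    IsLocallyConstant fun x : G × G => φ (T.u i x.1) (T.u (i + T.a x.1) x.2) := by
  have h1 : Continuous fun x : G × G => ((T.u i x.1 : U), (T.u (i + T.a x.1) x.2 : U)) := by
    refine ((T.u_cont i).comp continuous_fst).prodMk ?_
    have h2 : (fun x : G × G => (T.u (i + T.a x.1) x.2 : U)) =
        fun x : G × G => (T.u i x.1)⁻¹ * T.u i (x.1 * x.2) := by
      funext x
      rw [T.u_mul, inv_mul_cancel_left]
    rw [h2]
    exact ((T.u_cont i).comp continuous_fst).inv.mul ((T.u_cont i).comp continuous_mul)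
  exact hφ.comp_continuous h1

/-- Corestriction on cocycles. -/
def corZ : ↥(Z2 p U) →ₗ[ZMod p] ↥(Z2 p G) where
  toFun f := ⟨fun g h => ∑ i, f.1 (T.u i g) (T.u (i + T.a g) h), by
    obtain ⟨f, h1, h2⟩ := f
    refine ⟨?_, ?_⟩
    · exact lc_sum _ _ fun i _ => T.lc_u f h1 i
    · intro g h k
      have h3 : ∑ i, f (T.u i h) (T.u (i + T.a h) k) =
          ∑ i, f (T.u (i + T.a g) h) (T.u (i + T.a g + T.a h) k) :=
        (Equiv.sum_comp (Equiv.addRight (T.a g))
          (fun i => f (T.u i h) (T.u (i + T.a h) k))).symm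
      show ∑ i, f (T.u i h) (T.u (i + T.a h) k) + ∑ i, f (T.u i g) (T.u (i + T.a g) (h * k)) =
        ∑ i, f (T.u i (g * h)) (T.u (i + T.a (g * h)) k) + ∑ i, f (T.u i g) (T.u (i + T.a g) h)
      rw [h3, ← Finset.sum_add_distrib, ← Finset.sum_add_distrib]
      refine Finset.sum_congr rfl fun i _ => ?_
      rw [T.u_mul, T.u_mul, T.mul, ← add_assoc]
      exact h2 _ _ _⟩
  map_add' f g := by
    apply Subtype.ext
    funext x y
    exact Finset.sum_add_distrib
  map_smul' c f := by
    apply Subtype.ext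
    funext x y
    exact (Finset.mul_sum _ _ _).symm

theorem corZ_apply (f : ↥(Z2 p U)) (g h : G) :
    (T.corZ f).1 g h = ∑ i, f.1 (T.u i g) (T.u (i + T.a g) h) := rfl

theorem corZ_mem :
    (B2 p U).submoduleOf (Z2 p U) ≤ ((B2 p G).submoduleOf (Z2 p G)).comap T.corZ := by
  rintro ⟨f, hf⟩ ⟨φ, h1, h2⟩
  refine ⟨fun g => ∑ i, φ (T.u i g), ?_, fun g h => ?_⟩
  · exact lc_sum _ _ fun i _ => h1.comp_continuous (T.u_cont i)
  · show ∑ i, f (T.u i g) (T.u (i + T.a g) h) =
      ∑ i, φ (T.u i g) + ∑ i, φ (T.u i h) - ∑ i, φ (T.u i (g * h))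
    have h3 : ∑ i, φ (T.u i h) = ∑ i, φ (T.u (i + T.a g) h) :=
      (Equiv.sum_comp (Equiv.addRight (T.a g)) (fun i => φ (T.u i h))).symm
    rw [h3, ← Finset.sum_add_distrib, ← Finset.sum_sub_distrib]
    refine Finset.sum_congr rfl fun i _ => ?_
    rw [T.u_mul]
    exact h2 _ _

/-- Corestriction on `H²`. -/
def cor : H2 p U →ₗ[ZMod p] H2 p G :=
  Submodule.mapQ _ _ T.corZ T.corZ_mem

/-- Restriction on `H²`. -/
def res (_ : Tr p U) : H2 p G →ₗ[ZMod p] H2 p U :=
  pull U.subtype continuous_subtype_val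

/-- The key identity. -/
theorem key (f : G → G → ZMod p) (hf : ∀ g h k, f h k + f g (h * k) = f (g * h) k + f g h)
    (i : ZMod p) (g h : G) :
    f (T.u i g) (T.u (i + T.a g) h) = f g h
      + (f (T.u i g) (T.s (i + T.a g)) - f (T.s i) g)
      + (f (T.u (i + T.a g) h) (T.s (i + T.a g + T.a h)) - f (T.s (i + T.a g)) h)
      - (f (T.u i (g * h)) (T.s (i + T.a (g * h))) - f (T.s i) (g * h)) := by
  have e1 : ((T.u i g : U) : G) * T.s (i + T.a g) = T.s i * g := by
    simp only [u]
    group
  have e2 : ((T.u (i + T.a g) h : U) : G) * T.s (i + T.a g + T.a h) = T.s (i + T.a g) * h := by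
    simp only [u]
    group
  have e3 : ((T.u i (g * h) : U) : G) = (T.u i g : U) * (T.u (i + T.a g) h : U) := by
    rw [T.u_mul]
    rfl
  have h1 := hf (T.u i g) (T.u (i + T.a g) h) (T.s (i + T.a g + T.a h))
  have h2 := hf (T.u i g) (T.s (i + T.a g)) h
  have h3 := hf (T.s i) g h
  rw [e2] at h1
  rw [e1] at h2
  rw [e3, T.mul, ← add_assoc]
  linear_combination -h1 + h2 - h3

theorem cor_res (x : H2 p G) : T.cor (T.res x) = 0 := by
  obtain ⟨f, rfl⟩ := Submodule.Quotient.mk_surjective _ x
  have hp : ((p : ℕ) : ZMod p) = 0 := ZMod.natCast_self p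
  obtain ⟨f, h1, h2⟩ := f
  refine (Submodule.Quotient.mk_eq_zero _).mpr ?_
  have hlc : ∀ i, IsLocallyConstant
      (fun g => f (T.u i g) (T.s (i + T.a g)) - f (T.s i) g) := by
    intro i
    have c1 : Continuous fun g : G => (((T.u i g : U) : G), T.s (i + T.a g)) :=
      (continuous_subtype_val.comp (T.u_cont i)).prodMk
        (T.lc.comp fun j => T.s (i + j)).continuous
    have c2 : Continuous fun g : G => (T.s i, g) := continuous_const.prodMk continuous_id
    exact (h1.comp_continuous c1).sub (h1.comp_continuous c2)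
  refine ⟨fun g => ∑ i, (f (T.u i g) (T.s (i + T.a g)) - f (T.s i) g), ?_, fun g h => ?_⟩
  · exact lc_sum _ _ fun i _ => hlc i
  · show ∑ i, f (T.u i g) (T.u (i + T.a g) h) =
      ∑ i, (f (T.u i g) (T.s (i + T.a g)) - f (T.s i) g) +
      ∑ i, (f (T.u i h) (T.s (i + T.a h)) - f (T.s i) h) -
      ∑ i, (f (T.u i (g * h)) (T.s (i + T.a (g * h))) - f (T.s i) (g * h))
    have h3 : ∑ i, (f (T.u i h) (T.s (i + T.a h)) - f (T.s i) h) =
        ∑ i, (f (T.u (i + T.a g) h) (T.s (i + T.a g + T.a h)) - f (T.s (i + T.a g)) h) :=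
      (Equiv.sum_comp (Equiv.addRight (T.a g))
        (fun i => f (T.u i h) (T.s (i + T.a h)) - f (T.s i) h)).symm
    have h4 : ∑ i : ZMod p, f g h = 0 := by
      rw [Finset.sum_const, Finset.card_univ, ZMod.card, nsmul_eq_mul, hp, zero_mul]
    have h5 : ∀ i : ZMod p, f (T.u i g) (T.u (i + T.a g) h) = f g h +
        ((f (T.u i g) (T.s (i + T.a g)) - f (T.s i) g)
        + (f (T.u (i + T.a g) h) (T.s (i + T.a g + T.a h)) - f (T.s (i + T.a g)) h)
        - (f (T.u i (g * h)) (T.s (i + T.a (g * h))) - f (T.s i) (g * h))) := by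
      intro i
      rw [T.key f h2 i g h]
      ring
    rw [h3, ← Finset.sum_add_distrib, ← Finset.sum_sub_distrib,
      Finset.sum_congr rfl fun i _ => h5 i, Finset.sum_add_distrib, h4, zero_add]

end Tr

/-- A lift of the character of `T` to `ZMod (p ^ 2)`, in terms of the induced homomorphism
`κ : U → ZMod p`. -/
structure Li {p : ℕ} {G : Type*} [Group G] [TopologicalSpace G] {U : Subgroup G}
    (T : Tr p U) where
  /-- the homomorphism -/
  κ : U → ZMod p
  lc : IsLocallyConstant κ
  mul : ∀ g h, κ (g * h) = κ g + κ h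
  key : ∀ i g, κ (T.u i g) - κ (T.u (i + 1) g) =
    (if i + 1 = 0 then 1 else 0) - (if i + 1 + T.a g = 0 then 1 else 0)

namespace Li

variable {p : ℕ} {G : Type*} [Group G] [TopologicalSpace G] {U : Subgroup G} {T : Tr p U}
  (L : Li T)
include L

variable [Fact p.Prime] [IsTopologicalGroup G]

theorem open_U : IsOpen (U : Set G) := by
  have h1 : (U : Set G) = T.a ⁻¹' {0} := by
    ext g
    exact T.mem g
  rw [h1]
  exact T.lc _

theorem ker_le : LinearMap.ker T.res ≤ LinearMap.range T.cor := by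
  classical
  intro x hx
  obtain ⟨f0, rfl⟩ := Submodule.Quotient.mk_surjective _ x
  obtain ⟨f0, hf0⟩ := f0
  obtain ⟨φ, hφ, hφ'⟩ := (Submodule.Quotient.mk_eq_zero _).mp (LinearMap.mem_ker.mp hx)
  replace hφ' : ∀ g h : U, f0 g h = φ g + φ h - φ (g * h) := hφ'
  -- extend `φ` by zero
  let Φ : G → ZMod p := fun g => if h : g ∈ U then φ ⟨g, h⟩ else 0
  have hΦ : IsLocallyConstant Φ := by
    rw [IsLocallyConstant.iff_eventually_eq]
    intro g
    by_cases hg : g ∈ U
    · have h1 := (IsLocallyConstant.iff_eventually_eq φ).mp hφ ⟨g, hg⟩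
      have h2 := L.open_U.mem_nhds hg
      rw [nhds_subtype_eq_comap, Filter.eventually_comap] at h1
      filter_upwards [h1, h2] with y hy hy'
      have hy'' : y ∈ U := hy'
      simp only [Φ, dif_pos hg, dif_pos hy'']
      exact hy ⟨y, hy''⟩ rfl
    · have h2 : IsOpen ((U : Set G)ᶜ) := (U.isClosed_of_isOpen L.open_U).isOpen_compl
      filter_upwards [h2.mem_nhds hg] with y hy
      have hy' : y ∉ U := hy
      simp only [Φ, dif_neg hg, dif_neg hy']
  have hΦU : ∀ g : U, Φ g = φ g := fun g => dif_pos g.2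
  -- the modified cocycle
  let f : G → G → ZMod p := fun g h => f0 g h - (Φ g + Φ h - Φ (g * h))
  have hfc : ∀ g h k, f h k + f g (h * k) = f (g * h) k + f g h := by
    intro g h k
    simp only [f]
    rw [mul_assoc]
    linear_combination hf0.2 g h k
  have hfU : ∀ g h : U, f g h = 0 := by
    intro g h
    have h1 := hφ' g h
    have h2 : Φ ((g : G) * h) = φ (g * h) := hΦU (g * h)
    simp only [f]
    rw [h2, hΦU, hΦU, h1]
    ring
  have hflc : IsLocallyConstant fun x : G × G => f x.1 x.2 := by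
    exact hf0.1.sub (((hΦ.comp_continuous continuous_fst).add
      (hΦ.comp_continuous continuous_snd)).sub (hΦ.comp_continuous continuous_mul))
  -- the functions `F l`
  let F : ZMod p → G → ZMod p := fun i g => f (T.s i) g - f (T.u i g) (T.s (i + T.a g))
  have hF : ∀ i g h, f g h = F i g + F (i + T.a g) h - F i (g * h) := by
    intro i g h
    have h1 := T.key f hfc i g h
    rw [hfU] at h1
    simp only [F]
    linear_combination -h1
  have hFlc : ∀ i, IsLocallyConstant (F i) := by
    intro i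
    have c1 : Continuous fun g : G => (((T.u i g : U) : G), T.s (i + T.a g)) :=
      (continuous_subtype_val.comp (T.u_cont i)).prodMk
        (T.lc.comp fun j => T.s (i + j)).continuous
    have c2 : Continuous fun g : G => (T.s i, g) := continuous_const.prodMk continuous_id
    exact (hflc.comp_continuous c2).sub (hflc.comp_continuous c1)
  let D : ZMod p → G → ZMod p := fun i g => F (i + 1) g - F i g
  have hD : ∀ i g h, D i (g * h) = D i g + D (i + T.a g) h := by
    intro i g h
    simp only [D]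
    have h1 := hF i g h
    have h2 := hF (i + 1) g h
    rw [show i + 1 + T.a g = i + T.a g + 1 by ring] at h2
    linear_combination h2 - h1
  let z : U → ZMod p := fun g => D 0 g
  have hz : ∀ g h, z (g * h) = z g + z h := by
    intro g h
    have h1 := hD 0 g h
    rw [(T.mem g).mp g.2, add_zero] at h1
    exact h1
  have hzlc : IsLocallyConstant z :=
    ((hFlc (0 + 1)).sub (hFlc 0)).comp_continuous continuous_subtype_val
  let w : ZMod p → ZMod p := fun i => D 0 (T.s i)
  have hzu : ∀ i g, z (T.u i g) = w i + D i g - w (i + T.a g) := by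
    intro i g
    have e1 : ((T.u i g : U) : G) * T.s (i + T.a g) = T.s i * g := by
      simp only [Tr.u]
      group
    have h1 := hD 0 (T.s i) g
    have h2 := hD 0 (T.u i g) (T.s (i + T.a g))
    rw [T.as, zero_add] at h1
    rw [(T.mem _).mp (T.u i g).2, add_zero, e1, h1] at h2
    simp only [z, w]
    linear_combination -h2
  -- the cup product
  let cup : ↥(Z2 p U) := ⟨fun g h => L.κ g * z h, by
    refine ⟨?_, ?_⟩
    · exact (L.lc.comp_continuous continuous_fst).mul (hzlc.comp_continuous continuous_snd)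
    · intro g h k
      simp only []
      rw [hz, L.mul]
      ring⟩
  refine ⟨Submodule.Quotient.mk cup, ?_⟩
  refine (Submodule.Quotient.eq _).mpr ?_
  refine ⟨fun g => -(F 0 g - ∑ i, L.κ (T.u i g) * w (i + T.a g) + Φ g), ?_, fun g h => ?_⟩
  · refine IsLocallyConstant.neg (IsLocallyConstant.add (IsLocallyConstant.sub (hFlc 0) ?_) hΦ)
    refine Tr.lc_sum _ _ fun i _ => ?_
    exact IsLocallyConstant.mul (L.lc.comp_continuous (T.u_cont i))
      (T.lc.comp fun j => w (i + j))
  · show ∑ i, L.κ (T.u i g) * z (T.u (i + T.a g) h) - f0 g h =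
      -(F 0 g - ∑ i, L.κ (T.u i g) * w (i + T.a g) + Φ g) +
      -(F 0 h - ∑ i, L.κ (T.u i h) * w (i + T.a h) + Φ h) -
      -(F 0 (g * h) - ∑ i, L.κ (T.u i (g * h)) * w (i + T.a (g * h)) + Φ (g * h))
    have s1 : ∑ i, L.κ (T.u i g) * z (T.u (i + T.a g) h) =
        ∑ i, L.κ (T.u i g) * w (i + T.a g) + ∑ i, L.κ (T.u i g) * D (i + T.a g) h -
        ∑ i, L.κ (T.u i g) * w (i + T.a g + T.a h) := by
      rw [← Finset.sum_add_distrib, ← Finset.sum_sub_distrib]
      refine Finset.sum_congr rfl fun i _ => ?_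
      rw [hzu]
      ring
    have s2 : ∑ i, L.κ (T.u i h) * w (i + T.a h) =
        ∑ i, L.κ (T.u (i + T.a g) h) * w (i + T.a g + T.a h) :=
      (Equiv.sum_comp (Equiv.addRight (T.a g)) (fun i => L.κ (T.u i h) * w (i + T.a h))).symm
    have s3 : ∑ i, L.κ (T.u i (g * h)) * w (i + T.a (g * h)) =
        ∑ i, L.κ (T.u i g) * w (i + T.a g + T.a h) +
        ∑ i, L.κ (T.u (i + T.a g) h) * w (i + T.a g + T.a h) := by
      rw [← Finset.sum_add_distrib]
      refine Finset.sum_congr rfl fun i _ => ?_
      rw [T.u_mul, L.mul, T.mul, ← add_assoc]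
      ring
    have s4 : ∑ i, L.κ (T.u i g) * D (i + T.a g) h = F (T.a g) h - F 0 h := by
      have t1 : ∑ i, L.κ (T.u i g) * F (i + 1 + T.a g) h -
          ∑ i, L.κ (T.u (i + 1) g) * F (i + 1 + T.a g) h =
          ∑ i, L.κ (T.u i g) * D (i + T.a g) h := by
        have t2 : ∑ i, L.κ (T.u (i + 1) g) * F (i + 1 + T.a g) h =
            ∑ i, L.κ (T.u i g) * F (i + T.a g) h :=
          Equiv.sum_comp (Equiv.addRight (1 : ZMod p))
            (fun i => L.κ (T.u i g) * F (i + T.a g) h)
        rw [t2, ← Finset.sum_sub_distrib]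
        refine Finset.sum_congr rfl fun i _ => ?_
        simp only [D]
        rw [show i + 1 + T.a g = i + T.a g + 1 by ring]
        ring
      rw [← t1, ← Finset.sum_sub_distrib]
      have t3 : ∀ i ∈ (Finset.univ : Finset (ZMod p)),
          L.κ (T.u i g) * F (i + 1 + T.a g) h - L.κ (T.u (i + 1) g) * F (i + 1 + T.a g) h =
          (if i + 1 = 0 then F (i + 1 + T.a g) h else 0) -
          (if i + 1 + T.a g = 0 then F (i + 1 + T.a g) h else 0) := by
        intro i _
        rw [← sub_mul, L.key]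
        split_ifs <;> ring
      rw [Finset.sum_congr rfl t3, Finset.sum_sub_distrib]
      have t4 : ∑ i : ZMod p, (if i + 1 = 0 then F (i + 1 + T.a g) h else 0) =
          ∑ i : ZMod p, (if i = 0 then F (i + T.a g) h else 0) :=
        Equiv.sum_comp (Equiv.addRight (1 : ZMod p))
          (fun i => if i = 0 then F (i + T.a g) h else 0)
      have t5 : ∑ i : ZMod p, (if i + 1 + T.a g = 0 then F (i + 1 + T.a g) h else 0) =
          ∑ i : ZMod p, (if i = 0 then F i h else 0) := by
        have := Equiv.sum_comp (Equiv.addRight (1 + T.a g : ZMod p))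
          (fun i => if i = 0 then F i h else 0)
        rw [← this]
        refine Finset.sum_congr rfl fun i _ => ?_
        simp only [Equiv.coe_addRight, ← add_assoc]
      rw [t4, t5, Finset.sum_ite_eq' Finset.univ (0 : ZMod p), Finset.sum_ite_eq' Finset.univ
        (0 : ZMod p)]
      simp
    rw [s1, s2, s3, s4]
    have s5 : f0 g h = F 0 g + F (T.a g) h - F 0 (g * h) + (Φ g + Φ h - Φ (g * h)) := by
      have := hF 0 g h
      rw [zero_add] at this
      rw [← this]
      simp only [f]
      ring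
    rw [s5]
    ring

end Li

end Pool.Agent.MP_6fb7ad_al
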