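import Pool.Agent.MP_6fb7ad_al.A1

/-!
# MP_6fb7ad_al [OR-D1]: invariant characters of normal subgroups
-/

set_option autoImplicit false

namespace Pool.Agent.MP_6fb7ad_al

theorem d1a_char {p : ℕ} [Fact p.Prime] {R : Type} [Group R] [Finite R] (hR : IsPGroup p R)
    (hn : Nontrivial R) : ∃ f : R →* Multiplicative (ZMod p), f ≠ 1 := by
  have hp : p.Prime := Fact.out
  obtain ⟨n, hcard⟩ := IsPGroup.iff_card.1 hR
  have hn0 : n ≠ 0 := by
    rintro rfl
    have h1 := Finite.one_lt_card (α := R)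
    rw [hcard, pow_zero] at h1
    exact lt_irrefl _ h1
  obtain ⟨m, rfl⟩ := Nat.exists_eq_succ_of_ne_zero hn0
  obtain ⟨K, hK⟩ := Sylow.exists_subgroup_card_pow_prime (G := R) p (n := m)
    (by rw [hcard]; exact pow_dvd_pow p (Nat.le_succ m))
  have hidx : K.index = p := by
    have h1 := K.card_mul_index
    rw [hK, hcard, Nat.succ_eq_add_one, pow_succ] at h1
    exact Nat.eq_of_mul_eq_mul_left (pow_pos hp.pos m) h1
  have hnor : K.Normal := by
    apply Subgroup.normal_of_index_eq_minFac_card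
    rw [hidx, hcard, hp.pow_minFac (Nat.succ_ne_zero m)]
  have hc1 : Nat.card (R ⧸ K) = p := hidx
  have hc2 : Nat.card (Multiplicative (ZMod p)) = p := by
    rw [Nat.card_congr Multiplicative.toAdd, Nat.card_zmod]
  let e : R ⧸ K ≃* Multiplicative (ZMod p) := mulEquivOfPrimeCardEq hc1 hc2
  refine ⟨e.toMonoidHom.comp (QuotientGroup.mk' K), ?_⟩
  intro h
  have h2 : ∀ x : R, x ∈ K := by
    intro x
    have h3 := DFunLike.congr_fun h x
    have h4 : e (QuotientGroup.mk' K x) = 1 := h3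
    rw [map_eq_one_iff e e.injective] at h4
    exact (QuotientGroup.eq_one_iff x).1 h4
  have h5 : K = ⊤ := by
    rw [eq_top_iff]; intro x _; exact h2 x
  rw [h5, Subgroup.index_top] at hidx
  exact hp.one_lt.ne hidx

/-- A nontrivial normal subgroup `R` of a finite `p`-group `Q` has a nonzero invariant character.
Proof: `K = ⁅R, ⊤⁆` is a proper subgroup of `R` (if `⁅R, ⊤⁆ = R` then `R ≤` all terms of the lower
central series, which is trivial for some index: `IsPGroup.isNilpotent`,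
`Subgroup.lowerCentralSeries`), normal in `Q`. The quotient `R / K` is a nontrivial finite
commutative `p`-group on which the conjugation by `Q` is trivial; it has a nonzero homomorphism to
`ZMod p` (a maximal subgroup `M` of `R` containing `K` is normal in `R` of index `p`, as in
`exists_char` of C3; or by the structure of finite commutative groups). A homomorphism `R → ZMod p`
killing `K` satisfies `θ (g a g⁻¹) = θ (g a g⁻¹ a⁻¹) + θ a = θ a`. -/
theorem fin_inv0 {p : ℕ} [Fact p.Prime] {Q : Type} [Group Q] [Finite Q] (hQ : IsPGroup p Q)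
    (R : Subgroup Q) (hR : R.Normal) (hne : R ≠ ⊥) :
    ∃ θ : R → ZMod p, (∀ a b, θ (a * b) = θ a + θ b) ∧
      (∀ (g : Q) (a b : R), (b : Q) = g * a * g⁻¹ → θ b = θ a) ∧ ∃ a, θ a ≠ 0 := by
  have hp : p.Prime := Fact.out
  have := hR
  have hRn : Nontrivial R := (Subgroup.nontrivial_iff_ne_bot R).2 hne
  obtain ⟨f, hf⟩ := d1a_char (hQ.to_subgroup R) hRn
  let act : MulAction Q (R →* Multiplicative (ZMod p)) :=
    { smul := fun g θ => θ.comp (MulAut.conjNormal (H := R) g⁻¹).toMonoidHom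
      one_smul := by
        intro θ
        show θ.comp (MulAut.conjNormal (H := R) (1 : Q)⁻¹).toMonoidHom = θ
        rw [inv_one, map_one]
        rfl
      mul_smul := by
        intro g h θ
        show θ.comp (MulAut.conjNormal (H := R) (g * h)⁻¹).toMonoidHom =
          (θ.comp (MulAut.conjNormal (H := R) h⁻¹).toMonoidHom).comp
            (MulAut.conjNormal (H := R) g⁻¹).toMonoidHom
        rw [mul_inv_rev, map_mul]
        rfl }
  have : Finite (R →* Multiplicative (ZMod p)) :=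
    Finite.of_injective (fun θ : R →* Multiplicative (ZMod p) => (θ : R → Multiplicative (ZMod p)))
      DFunLike.coe_injective
  have hfp : f ^ p = 1 := by
    ext x
    show Multiplicative.toAdd ((f x) ^ p) = 0
    rw [toAdd_pow, nsmul_eq_mul, CharP.cast_eq_zero, zero_mul]
  have hdvd : p ∣ Nat.card (R →* Multiplicative (ZMod p)) := by
    have h9 := orderOf_dvd_natCard f
    rwa [orderOf_eq_prime hfp hf] at h9
  have h1 : (1 : R →* Multiplicative (ZMod p)) ∈ MulAction.fixedPoints Q (R →* Multiplicative (ZMod p)) := by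
    intro g
    rfl
  obtain ⟨θ, hθ, hne1⟩ := hQ.exists_fixed_point_of_prime_dvd_card_of_fixed_point _ hdvd h1
  have hfix : ∀ (g : Q) (a : R), θ (MulAut.conjNormal (H := R) g a) = θ a := by
    intro g a
    have h2 : θ.comp (MulAut.conjNormal (H := R) (g⁻¹)⁻¹).toMonoidHom = θ := hθ g⁻¹
    rw [inv_inv] at h2
    exact DFunLike.congr_fun h2 a
  refine ⟨fun a => Multiplicative.toAdd (θ a), ?_, ?_, ?_⟩
  · intro a b
    show Multiplicative.toAdd (θ (a * b)) = _
    rw [map_mul, toAdd_mul]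
  · intro g a b hb
    have h3 : b = MulAut.conjNormal (H := R) g a := by
      apply Subtype.ext
      rw [MulAut.conjNormal_apply, hb]
    show Multiplicative.toAdd (θ b) = Multiplicative.toAdd (θ a)
    rw [h3, hfix]
  · by_contra hno
    push Not at hno
    apply hne1
    ext x
    exact (hno x).symm

/-- Apply `fin_inv0` to the image of `R` in `Q ⧸ N`. -/
theorem fin_inv {p : ℕ} [Fact p.Prime] {Q : Type} [Group Q] [Finite Q] (hQ : IsPGroup p Q)
    (N R : Subgroup Q) (hN : N.Normal) (hR : R.Normal) (hne : ¬ R ≤ N) :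
    ∃ θ : R → ZMod p, (∀ a b, θ (a * b) = θ a + θ b) ∧
      (∀ (g : Q) (a b : R), (b : Q) = g * a * g⁻¹ → θ b = θ a) ∧
      (∀ a : R, (a : Q) ∈ N → θ a = 0) ∧ ∃ a, θ a ≠ 0 := by
  haveI := hN
  have hP : IsPGroup p (Q ⧸ N) := hQ.to_quotient N
  have hRn : (R.map (QuotientGroup.mk' N)).Normal :=
    hR.map (QuotientGroup.mk' N) (QuotientGroup.mk'_surjective N)
  obtain ⟨r, hr, hrN⟩ := SetLike.not_le_iff_exists.1 hne
  have hne' : R.map (QuotientGroup.mk' N) ≠ ⊥ := by
    intro h
    have h1 : QuotientGroup.mk' N r ∈ R.map (QuotientGroup.mk' N) := ⟨r, hr, rfl⟩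
    rw [h, Subgroup.mem_bot, QuotientGroup.mk'_apply, QuotientGroup.eq_one_iff] at h1
    exact hrN h1
  obtain ⟨θ, h1, h2, h3⟩ := fin_inv0 hP (R.map (QuotientGroup.mk' N)) hRn hne'
  have hm : ∀ a : R, QuotientGroup.mk' N (a : Q) ∈ R.map (QuotientGroup.mk' N) := fun a =>
    ⟨a, a.2, rfl⟩
  refine ⟨fun a => θ ⟨QuotientGroup.mk' N a, hm a⟩, ?_, ?_, ?_, ?_⟩
  · intro a b
    rw [← h1]
    congr 1
  · intro g a b hb
    refine h2 (QuotientGroup.mk' N g) _ _ ?_
    show QuotientGroup.mk' N (b : Q) = QuotientGroup.mk' N g * QuotientGroup.mk' N a *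
      (QuotientGroup.mk' N g)⁻¹
    rw [hb, map_mul, map_mul, map_inv]
  · intro a ha
    have e : (⟨QuotientGroup.mk' N a, hm a⟩ : R.map (QuotientGroup.mk' N)) = 1 := by
      apply Subtype.ext
      show QuotientGroup.mk' N (a : Q) = 1
      rw [QuotientGroup.mk'_apply, QuotientGroup.eq_one_iff]
      exact ha
    show θ ⟨QuotientGroup.mk' N a, hm a⟩ = 0
    rw [e]
    have h := h1 1 1
    rw [mul_one] at h
    exact left_eq_add.1 h
  · obtain ⟨⟨_, a, ha, rfl⟩, h4⟩ := h3
    exact ⟨⟨a, ha⟩, h4⟩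

/-- Let `a ∈ R`, `a ∉ N`. By `exists_sep` there is an open normal `W` with `a * w ∉ N` for all
`w ∈ W`, so the image of `a` in `F ⧸ W` is not in the image of `N`. Apply `fin_inv` to the finite
`p`-group `F ⧸ W` (`quot_fin`) and the images (`Subgroup.map`) of `N` and `R`, and compose with
`R → image of R` (locally constant since `W` is open). -/
theorem exists_inv {p : ℕ} [Fact p.Prime] {F : Type} [Group F] [TopologicalSpace F]
    [IsTopologicalGroup F] (hF : IsProP p F) (N R : Subgroup F) (hN : N.Normal) (hR : R.Normal)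
    (hNc : IsClosed (N : Set F)) (hne : ¬ R ≤ N) :
    ∃ θ : R → ZMod p, IsInv p R θ ∧ (∀ a : R, (a : F) ∈ N → θ a = 0) ∧ ∃ a, θ a ≠ 0 := by
  obtain ⟨r, hr, hrN⟩ := SetLike.not_le_iff_exists.1 hne
  obtain ⟨W, hW, hWo, hWs⟩ := exists_sep hF N hNc r hrN
  haveI := hW
  obtain ⟨hfin, hP⟩ := quot_fin hF W hWo
  haveI := hfin
  have hNn : (N.map (QuotientGroup.mk' W)).Normal :=
    hN.map (QuotientGroup.mk' W) (QuotientGroup.mk'_surjective W)
  have hRn : (R.map (QuotientGroup.mk' W)).Normal :=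
    hR.map (QuotientGroup.mk' W) (QuotientGroup.mk'_surjective W)
  have hne' : ¬ R.map (QuotientGroup.mk' W) ≤ N.map (QuotientGroup.mk' W) := by
    intro h
    have h1 : QuotientGroup.mk' W r ∈ R.map (QuotientGroup.mk' W) := ⟨r, hr, rfl⟩
    obtain ⟨n, hn, h2⟩ := h h1
    rw [QuotientGroup.mk'_apply, QuotientGroup.mk'_apply, eq_comm, QuotientGroup.eq] at h2
    refine hWs (r⁻¹ * n) h2 ?_
    rw [mul_inv_cancel_left]
    exact hn
  obtain ⟨θ, h1, h2, h3, h4⟩ := fin_inv hP _ _ hNn hRn hne'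
  have hm : ∀ a : R, QuotientGroup.mk' W (a : F) ∈ R.map (QuotientGroup.mk' W) := fun a =>
    ⟨a, a.2, rfl⟩
  refine ⟨fun a => θ ⟨QuotientGroup.mk' W a, hm a⟩, ⟨?_, ?_, ?_⟩, ?_, ?_⟩
  · refine (IsLocallyConstant.iff_exists_open _).2 fun x => ?_
    refine ⟨{y | (x : F)⁻¹ * y ∈ W},
      hWo.preimage ((continuous_const_mul (x : F)⁻¹).comp continuous_subtype_val), by
      show (x : F)⁻¹ * x ∈ W
      rw [inv_mul_cancel]
      exact W.one_mem, ?_⟩
    intro y hy
    have hy' : (x : F)⁻¹ * y ∈ W := hy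
    have e : (⟨QuotientGroup.mk' W y, hm y⟩ : R.map (QuotientGroup.mk' W)) =
        ⟨QuotientGroup.mk' W x, hm x⟩ := by
      apply Subtype.ext
      show QuotientGroup.mk' W (y : F) = QuotientGroup.mk' W x
      rw [QuotientGroup.mk'_apply, QuotientGroup.mk'_apply, eq_comm, QuotientGroup.eq]
      exact hy'
    show θ ⟨QuotientGroup.mk' W y, hm y⟩ = θ ⟨QuotientGroup.mk' W x, hm x⟩
    rw [e]
  · intro a b
    rw [← h1]
    congr 1
  · intro g a b hb
    refine h2 (QuotientGroup.mk' W g) _ _ ?_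
    show QuotientGroup.mk' W (b : F) = QuotientGroup.mk' W g * QuotientGroup.mk' W a *
      (QuotientGroup.mk' W g)⁻¹
    rw [hb, map_mul, map_mul, map_inv]
  · intro a ha
    exact h3 _ ⟨a, ha, rfl⟩
  · obtain ⟨⟨_, a, ha, rfl⟩, h5⟩ := h4
    exact ⟨⟨a, ha⟩, h5⟩

end Pool.Agent.MP_6fb7ad_al
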