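import Pool.Agent.MP_6fb7ad_al.A1

/-!
# MP_6fb7ad_al [OR-D2]: transgression
-/

set_option autoImplicit false

namespace Pool.Agent.MP_6fb7ad_al

variable {p : ℕ} [Fact p.Prime] {F : Type} [Group F] [TopologicalSpace F] [IsTopologicalGroup F]

/-- `θ` is locally constant on `R`, so `{x ∈ F | ∀ h : x ∈ R, θ ⟨x, h⟩ = 0}`... more precisely: the
set `{a : R | θ a = 0}` is open in `R`, so there is an open `V ⊆ F` with `1 ∈ V` and `θ = 0` on
`V ∩ R`; take an open normal `W ⊆ V` (`exists_normal_le`). So `θ a = 0` for `a ∈ R ∩ W`.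
Let `M = R ⊔ W`, an open subgroup; for `a ∈ R`, `w ∈ W` put `Θ₀ (a w) = θ a` (well defined since
`a w = a' w'` gives `a⁻¹ a' ∈ R ∩ W`). Choose representatives of the left cosets `g M`
(`Quotient.out`): every `g` is `t * m` with `t = out (g M)`, `m ∈ M`; put `Θ g = Θ₀ m`. Then
`Θ (g w) = Θ g` for `w ∈ W`, so `Θ` is locally constant, and `Θ (g n) = Θ g + θ n` for `n ∈ R`:
`(a w) n = (a n) (n⁻¹ w n)`. -/
theorem exists_ext (hF : IsProP p F) (R : Subgroup F) (hR : R.Normal) (θ : R → ZMod p)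
    (hθ : IsInv p R θ) :
    ∃ Θ : F → ZMod p, IsLocallyConstant Θ ∧ ∀ (g : F) (n : R), Θ (g * n) = Θ g + θ n := by
  classical
  -- an open normal subgroup on which `θ` vanishes
  obtain ⟨W, hWn, hWo, hW⟩ : ∃ W : Subgroup F, W.Normal ∧ IsOpen (W : Set F) ∧
      ∀ a : R, (a : F) ∈ W → θ a = 0 := by
    have h1 : IsOpen {a : R | θ a = 0} := hθ.lc {0}
    obtain ⟨V, hV, hV'⟩ := isOpen_induced_iff.1 h1
    have h0 : θ 1 = 0 := by
      have := hθ.mul 1 1
      rw [mul_one] at this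
      exact left_eq_add.mp this
    have h2 : (1 : F) ∈ V := by
      have h3 : (1 : R) ∈ (Subtype.val ⁻¹' V : Set R) := by
        rw [hV']
        exact h0
      exact h3
    obtain ⟨W, hWn, hWo, hW⟩ := exists_normal_le hF V hV h2
    refine ⟨W, hWn, hWo, fun a ha => ?_⟩
    have h3 : a ∈ (Subtype.val ⁻¹' V : Set R) := hW ha
    rw [hV'] at h3
    exact h3
  have hinv : ∀ a : R, θ a⁻¹ = - θ a := by
    intro a
    have h1 := hθ.mul a a⁻¹
    have h2 := hθ.mul 1 1
    rw [mul_one] at h2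
    rw [mul_inv_cancel, left_eq_add.mp h2] at h1
    exact (neg_eq_of_add_eq_zero_right h1.symm).symm
  -- the function on `R * W`
  let P : F → R → Prop := fun m a => (a : F)⁻¹ * m ∈ W
  have hP : ∀ m a a', P m a → P m a' → θ a = θ a' := by
    intro m a a' h1 h2
    have h3 : ((a'⁻¹ * a : R) : F) ∈ W := by
      have h4 := W.mul_mem h2 (W.inv_mem h1)
      have h5 : (a' : F)⁻¹ * m * ((a : F)⁻¹ * m)⁻¹ = ((a'⁻¹ * a : R) : F) := by
        rw [Subgroup.coe_mul, Subgroup.coe_inv]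
        group
      rwa [h5] at h4
    have h4 := hW _ h3
    rw [hθ.mul, hinv] at h4
    linear_combination h4
  let T : F → ZMod p := fun m => if h : ∃ a, P m a then θ h.choose else 0
  have hT : ∀ m a, P m a → T m = θ a := by
    intro m a h
    have h1 : ∃ a, P m a := ⟨a, h⟩
    simp only [T, dif_pos h1]
    exact hP m _ _ h1.choose_spec h
  have hTn : ∀ m a (n : R), P m a → T (m * n) = T m + θ n := by
    intro m a n h
    have h1 : P (m * n) (a * n) := by
      show ((a * n : R) : F)⁻¹ * (m * n) ∈ W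
      have h2 := hWn.conj_mem _ h (n : F)⁻¹
      rw [inv_inv] at h2
      have h3 : ((a * n : R) : F)⁻¹ * (m * n) = (n : F)⁻¹ * ((a : F)⁻¹ * m) * n := by
        rw [Subgroup.coe_mul]
        group
      rwa [h3]
    rw [hT _ _ h1, hT _ _ h, hθ.mul]
  have hTw : ∀ m a w, w ∈ W → P m a → T (m * w) = T m := by
    intro m a w hw h
    have h1 : P (m * w) a := by
      show (a : F)⁻¹ * (m * w) ∈ W
      rw [← mul_assoc]
      exact W.mul_mem h hw
    rw [hT _ _ h1, hT _ _ h]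
  -- representatives of the cosets of `R ⊔ W`
  let M : Subgroup F := R ⊔ W
  have hM : ∀ m, m ∈ M → ∃ a, P m a := by
    intro m hm
    obtain ⟨a, ha, w, hw, h⟩ := Subgroup.mem_sup_of_normal_right.1 (show m ∈ R ⊔ W from hm)
    refine ⟨⟨a, ha⟩, ?_⟩
    show a⁻¹ * m ∈ W
    have h' : a * w = m := h
    rw [← h', inv_mul_cancel_left]
    exact hw
  let t : F → F := fun g => (QuotientGroup.mk g : F ⧸ M).out
  have ht : ∀ g, (t g)⁻¹ * g ∈ M := by
    intro g
    exact QuotientGroup.eq.1 (Quotient.out_eq' _)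
  have htn : ∀ g m, m ∈ M → t (g * m) = t g := by
    intro g m hm
    have h1 : (QuotientGroup.mk (g * m) : F ⧸ M) = QuotientGroup.mk g := by
      rw [QuotientGroup.eq]
      rw [mul_inv_rev, inv_mul_cancel_right]
      exact M.inv_mem hm
    simp only [t, h1]
  refine ⟨fun g => T ((t g)⁻¹ * g), ?_, fun g n => ?_⟩
  · rw [IsLocallyConstant.iff_eventually_eq]
    intro g
    have h1 : ∀ᶠ y in nhds g, g⁻¹ * y ∈ (W : Set F) := by
      have h2 : ContinuousAt (fun y => g⁻¹ * y) g := (continuous_const.mul continuous_id).continuousAt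
      refine h2.eventually (p := fun y => y ∈ (W : Set F)) ?_
      show ∀ᶠ y in nhds (g⁻¹ * g), y ∈ (W : Set F)
      rw [inv_mul_cancel]
      exact hWo.mem_nhds W.one_mem
    filter_upwards [h1] with y hy
    have hy' : g⁻¹ * y ∈ W := hy
    have h3 : y = g * (g⁻¹ * y) := (mul_inv_cancel_left g y).symm
    obtain ⟨a, ha⟩ := hM _ (ht g)
    have h4 : t y = t g := by
      rw [h3]
      exact htn g _ ((le_sup_right : W ≤ R ⊔ W) hy')
    show T ((t y)⁻¹ * y) = T ((t g)⁻¹ * g)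
    rw [h4, h3, ← mul_assoc, hTw _ a _ hy' ha]
  · obtain ⟨a, ha⟩ := hM _ (ht g)
    show T ((t (g * n))⁻¹ * (g * n)) = T ((t g)⁻¹ * g) + θ n
    rw [htn g n ((le_sup_left : R ≤ R ⊔ W) n.2), ← mul_assoc, hTn _ a n ha]


/-- Take `Θ` from `exists_ext` (`R = π.ker`). The function
`k g h = Θ g + Θ h - Θ (g h)` satisfies the cocycle identity and `k (g n) (h m) = k g h` for
`n, m ∈ R` (`g n h m = g h (h⁻¹ n h) m`, and `θ` is invariant), so `k g h = f (π g) (π h)` with
`f : G → G → ZMod p` (`π` is surjective), a cocycle. It is locally constant: the map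
`F × F → G × G`, `(g, h) ↦ (π g, π h)` is continuous and surjective from a compact to a Hausdorff
space, hence a quotient map (closed map), and the composite with it is locally constant
(preimages of sets are clopen). -/
theorem exists_trans (hF : IsProP p F) {G : Type} [Group G] [TopologicalSpace G]
    [IsTopologicalGroup G] [T2Space G] (π : F →* G) (hπ : Continuous π)
    (hs : Function.Surjective π) (θ : π.ker → ZMod p) (hθ : IsInv p π.ker θ) :
    ∃ (f : ↥(Z2 p G)) (Θ : F → ZMod p), IsLocallyConstant Θ ∧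
      (∀ (g : F) (n : π.ker), Θ (g * n) = Θ g + θ n) ∧
      ∀ g h, f.1 (π g) (π h) = Θ g + Θ h - Θ (g * h) := by
  have hc := hF.compact
  obtain ⟨Θ, hl, he⟩ := exists_ext hF π.ker inferInstance θ hθ
  have hK : ∀ g h g' h' : F, π g = π g' → π h = π h' →
      Θ g + Θ h - Θ (g * h) = Θ g' + Θ h' - Θ (g' * h') := by
    intro g h g' h' h1 h2
    have e1 : g⁻¹ * g' ∈ π.ker := by
      rw [MonoidHom.mem_ker, map_mul, map_inv, h1, inv_mul_cancel]
    have e2 : h⁻¹ * h' ∈ π.ker := by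
      rw [MonoidHom.mem_ker, map_mul, map_inv, h2, inv_mul_cancel]
    have e3 : h⁻¹ * (g⁻¹ * g') * h ∈ π.ker := by
      have := (inferInstance : (π.ker).Normal).conj_mem _ e1 h⁻¹
      rwa [inv_inv] at this
    have t1 := he g ⟨_, e1⟩
    have t2 := he h ⟨_, e2⟩
    have t3 := he (g * h) (⟨_, e3⟩ * ⟨_, e2⟩)
    rw [hθ.mul] at t3
    have t4 : θ ⟨_, e3⟩ = θ ⟨_, e1⟩ := by
      refine hθ.inv h⁻¹ ⟨_, e1⟩ ⟨_, e3⟩ ?_
      rw [inv_inv]
    have s1 : g * (g⁻¹ * g') = g' := mul_inv_cancel_left _ _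
    have s2 : h * (h⁻¹ * h') = h' := mul_inv_cancel_left _ _
    have s3 : g * h * ((⟨_, e3⟩ * ⟨_, e2⟩ : π.ker) : F) = g' * h' := by
      rw [Subgroup.coe_mul]
      group
    simp only [s1] at t1
    simp only [s2] at t2
    rw [s3] at t3
    rw [t1, t2, t3, t4]
    ring
  choose σ hσ using hs
  have hf : ∀ g h : F, Θ (σ (π g)) + Θ (σ (π h)) - Θ (σ (π g) * σ (π h)) =
      Θ g + Θ h - Θ (g * h) := fun g h => hK _ _ _ _ (hσ _) (hσ _)
  refine ⟨⟨fun x y => Θ (σ x) + Θ (σ y) - Θ (σ x * σ y), ?_, ?_⟩, Θ, hl, he, hf⟩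
  · have hq : Topology.IsQuotientMap (Prod.map π π) := by
      refine IsClosedMap.isQuotientMap ?_ (hπ.prodMap hπ) ?_
      · exact (hπ.prodMap hπ).isClosedMap
      · rintro ⟨x, y⟩
        exact ⟨(σ x, σ y), Prod.ext (hσ x) (hσ y)⟩
    intro A
    rw [← hq.isOpen_preimage]
    have h1 : IsLocallyConstant (fun x : F × F => Θ x.1 + Θ x.2 - Θ (x.1 * x.2)) :=
      ((hl.comp_continuous continuous_fst).add (hl.comp_continuous continuous_snd)).sub
        (hl.comp_continuous continuous_mul)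
    have h2 := h1 A
    convert h2 using 1
    ext x
    show Θ (σ (π x.1)) + Θ (σ (π x.2)) - Θ (σ (π x.1) * σ (π x.2)) ∈ A ↔ _
    rw [hf]
    rfl
  · intro x y z
    obtain ⟨g, rfl⟩ : ∃ g, π g = x := ⟨σ x, hσ x⟩
    obtain ⟨h, rfl⟩ : ∃ g, π g = y := ⟨σ y, hσ y⟩
    obtain ⟨k, rfl⟩ : ∃ g, π g = z := ⟨σ z, hσ z⟩
    show Θ (σ (π h)) + Θ (σ (π k)) - Θ (σ (π h) * σ (π k)) +
      (Θ (σ (π g)) + Θ (σ (π h * π k)) - Θ (σ (π g) * σ (π h * π k))) =
      Θ (σ (π g * π h)) + Θ (σ (π k)) - Θ (σ (π g * π h) * σ (π k)) +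
      (Θ (σ (π g)) + Θ (σ (π h)) - Θ (σ (π g) * σ (π h)))
    rw [← map_mul, ← map_mul, hf, hf, hf, hf, mul_assoc]
    ring


end Pool.Agent.MP_6fb7ad_al
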