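import Pool.Agent.MP_6fb7ad_al.C3
import Pool.Agent.MP_6fb7ad_al.D1
import Pool.Agent.MP_6fb7ad_al.D2

/-!
# MP_6fb7ad_al [OR-D3]: `dim H² ≤ 1` implies one defining relation
-/

set_option autoImplicit false

namespace Pool.Agent.MP_6fb7ad_al

variable {p : ℕ} [Fact p.Prime] {F : Type} [Group F] [TopologicalSpace F] [IsTopologicalGroup F]
  {G : Type} [Group G] [TopologicalSpace G] [IsTopologicalGroup G]

/-- Take `f₁, Θ₁` and `f₂, Θ₂` from `exists_trans`. As the rank is at most one there are `c₁, c₂`,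
not both zero, with `c₁ f₁ + c₂ f₂` a coboundary (`rank_le_one_iff`), of a locally constant `ψ`.
Let `χ = c₁ Θ₁ + c₂ Θ₂ - ψ ∘ π`: it satisfies `χ (g h) = χ g + χ h` and is locally constant, so it
is a character of `F`, and it kills `π.ker` by `hmin`. For `n ∈ π.ker`:
`χ n = χ 1 + c₁ θ₁ n + c₂ θ₂ n` (as `Θ (1 * n) = Θ 1 + θ n`, `ψ (π n) = ψ (π 1)`) and `χ 1 = 0`. -/
theorem dependent (hF : IsProP p F) [T2Space G] (π : F →* G) (hπ : Continuous π)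
    (hs : Function.Surjective π) (hmin : ∀ χ : F → ZMod p, IsChar p χ → ∀ g ∈ π.ker, χ g = 0)
    (hr : Module.rank (ZMod p) (H2 p G) ≤ 1) (θ₁ θ₂ : π.ker → ZMod p) (h₁ : IsInv p π.ker θ₁)
    (h₂ : IsInv p π.ker θ₂) :
    ∃ c₁ c₂ : ZMod p, (c₁ ≠ 0 ∨ c₂ ≠ 0) ∧ ∀ n, c₁ * θ₁ n + c₂ * θ₂ n = 0 := by
  obtain ⟨f₁, Θ₁, l₁, e₁, k₁⟩ := exists_trans hF π hπ hs θ₁ h₁
  obtain ⟨f₂, Θ₂, l₂, e₂, k₂⟩ := exists_trans hF π hπ hs θ₂ h₂
  -- linear dependence of the classes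
  obtain ⟨v, hv⟩ := rank_le_one_iff.1 hr
  obtain ⟨a₁, ha₁⟩ := hv (Submodule.Quotient.mk f₁)
  obtain ⟨a₂, ha₂⟩ := hv (Submodule.Quotient.mk f₂)
  obtain ⟨c₁, c₂, hc, hz⟩ : ∃ c₁ c₂ : ZMod p, (c₁ ≠ 0 ∨ c₂ ≠ 0) ∧
      (Submodule.Quotient.mk (c₁ • f₁ + c₂ • f₂) : H2 p G) = 0 := by
    by_cases h0 : a₁ = 0
    · refine ⟨1, 0, Or.inl one_ne_zero, ?_⟩
      rw [one_smul, zero_smul, add_zero, ← ha₁, h0, zero_smul]
    · refine ⟨a₂, -a₁, Or.inr (neg_ne_zero.2 h0), ?_⟩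
      rw [Submodule.Quotient.mk_add, Submodule.Quotient.mk_smul, Submodule.Quotient.mk_smul,
        ← ha₁, ← ha₂, smul_smul, smul_smul, ← add_smul]
      rw [show a₂ * a₁ + -a₁ * a₂ = 0 by ring, zero_smul]
  refine ⟨c₁, c₂, hc, fun n => ?_⟩
  obtain ⟨ψ, lψ, hψ⟩ := (Submodule.Quotient.mk_eq_zero _).1 hz
  replace hψ : ∀ g h, c₁ * f₁.1 g h + c₂ * f₂.1 g h = ψ g + ψ h - ψ (g * h) := hψ
  have hχ : IsChar p (fun g => c₁ * Θ₁ g + c₂ * Θ₂ g - ψ (π g)) := by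
    refine ⟨?_, fun g h => ?_⟩
    · exact ((l₁.comp fun y => c₁ * y).add (l₂.comp fun y => c₂ * y)).sub
        (lψ.comp_continuous hπ)
    · have t1 := k₁ g h
      have t2 := k₂ g h
      have t3 := hψ (π g) (π h)
      rw [map_mul]
      linear_combination c₁ * t1 + c₂ * t2 - t3
  have t1 := hmin _ hχ n n.2
  have t2 := hmin _ hχ 1 (Subgroup.one_mem _)
  have t3 := e₁ 1 n
  have t4 := e₂ 1 n
  rw [one_mul] at t3 t4
  have t5 : π (n : F) = π 1 := by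
    rw [map_one]
    exact n.2
  simp only [t5] at t1
  linear_combination t1 - t2 - c₁ * t3 - c₂ * t4


/-- If `π.ker = ⊥` take `r = 1`. Otherwise `exists_inv` with `N = ⊥` gives an invariant `θ₁ ≠ 0`; let
`r ∈ π.ker` with `θ₁ r ≠ 0`. Let `N` be a closed normal subgroup containing `r`, and suppose that
`π.ker ≤ N` fails: `exists_inv` gives an invariant `θ₂ ≠ 0` on `π.ker` vanishing on `N`, so
`θ₂ r = 0`. With `c₁, c₂` from `dependent`: `n = r` gives `c₁ θ₁ r = 0`, so `c₁ = 0`, so `c₂ ≠ 0`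
and `θ₂ = 0`, contradiction. -/
theorem exists_relator (hF : IsProP p F) [T2Space G] (π : F →* G) (hπ : Continuous π)
    (hs : Function.Surjective π) (hmin : ∀ χ : F → ZMod p, IsChar p χ → ∀ g ∈ π.ker, χ g = 0)
    (hr : Module.rank (ZMod p) (H2 p G) ≤ 1) :
    ∃ r ∈ π.ker, ∀ N : Subgroup F, N.Normal → IsClosed (N : Set F) → r ∈ N → π.ker ≤ N := by
  have := hF.t2
  by_cases h0 : π.ker = ⊥
  · refine ⟨1, Subgroup.one_mem _, fun N _ _ _ => ?_⟩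
    rw [h0]
    exact bot_le
  have hn : (π.ker).Normal := inferInstance
  obtain ⟨θ₁, i₁, -, r, hr₁⟩ := exists_inv hF ⊥ π.ker inferInstance hn
    (by
      rw [Subgroup.coe_bot]
      exact isClosed_singleton) (fun h => h0 (le_bot_iff.1 h))
  refine ⟨r, r.2, fun N hN hNc hrN => ?_⟩
  by_contra hne
  obtain ⟨θ₂, i₂, j₂, a, ha⟩ := exists_inv hF N π.ker hN hn hNc hne
  obtain ⟨c₁, c₂, hc, hz⟩ := dependent hF π hπ hs hmin hr θ₁ θ₂ i₁ i₂
  have t1 := hz r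
  rw [j₂ r hrN, mul_zero, add_zero] at t1
  have t2 : c₁ = 0 := (mul_eq_zero.1 t1).resolve_right hr₁
  have t3 := hz a
  rw [t2, zero_mul, zero_add] at t3
  rcases mul_eq_zero.1 t3 with t4 | t4
  · rcases hc with h | h
    · exact h t2
    · exact h t4
  · exact ha t4


theorem oneRelator_of_rank_le (hG : IsProP p G) (hr : Module.rank (ZMod p) (H2 p G) ≤ 1) :
    OneRelator p G := by
  have := hG.t2
  obtain ⟨X, F, _, _, _, i, π, hi, hπ, hs, hmin⟩ := exists_min hG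
  obtain ⟨r, h1, h2⟩ := exists_relator hi.proP π hπ hs hmin hr
  exact ⟨X, F, _, _, _, i, r, π, hi, hπ, hs, h1, h2⟩

end Pool.Agent.MP_6fb7ad_al
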