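import Pool.Agent.MP_6fb7ad_al.Chain

/-!
# MP_6fb7ad_al: pro-`p` groups, free pro-`p` groups, one defining relation
-/

set_option autoImplicit false

namespace Pool.Agent.MP_6fb7ad_al

/-- A pro-`p` group: a compact, Hausdorff, totally disconnected topological group in which every
open normal subgroup has index a power of `p`. -/
structure IsProP (p : ℕ) (G : Type) [Group G] [TopologicalSpace G] [IsTopologicalGroup G] :
    Prop where
  compact : CompactSpace G
  t2 : T2Space G
  td : TotallyDisconnectedSpace G
  pow : ∀ N : Subgroup G, N.Normal → IsOpen (N : Set G) → ∃ k : ℕ, N.index = p ^ k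

/-- A family of elements of `G` converges to `1`: every open subgroup contains all but finitely
many members of the family. -/
def ConvOne {X G : Type} [Group G] [TopologicalSpace G] (f : X → G) : Prop :=
  ∀ N : Subgroup G, IsOpen (N : Set G) → {x | f x ∉ N}.Finite

/-- `F` is a free pro-`p` group with basis `i : X → F`: it is a pro-`p` group, the family `i`
converges to `1`, and every family `f : X → P` converging to `1` in a pro-`p` group `P` is the
image of `i` under a unique continuous homomorphism `F → P`. -/
structure IsFreeProP (p : ℕ) {X F : Type} [Group F] [TopologicalSpace F] [IsTopologicalGroup F]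
    (i : X → F) : Prop where
  proP : IsProP p F
  conv : ConvOne i
  univ : ∀ (P : Type) [Group P] [TopologicalSpace P] [IsTopologicalGroup P], IsProP p P →
    ∀ f : X → P, ConvOne f → ∃! φ : F →* P, Continuous φ ∧ ∀ x, φ (i x) = f x

/-- `G` is a pro-`p` group with a single defining relation: there are a free pro-`p` group `F`,
an element `r` of `F` and a continuous surjective homomorphism `F → G` whose kernel is the
smallest closed normal subgroup of `F` containing `r`. -/
def OneRelator (p : ℕ) (G : Type) [Group G] [TopologicalSpace G] : Prop :=
  ∃ (X F : Type) (_ : Group F) (_ : TopologicalSpace F) (_ : IsTopologicalGroup F) (i : X → F)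
    (r : F) (π : F →* G), IsFreeProP p i ∧ Continuous π ∧ Function.Surjective π ∧ r ∈ π.ker ∧
    ∀ N : Subgroup F, N.Normal → IsClosed (N : Set F) → r ∈ N → π.ker ≤ N

/-- The universal property tested on finite `p`-groups. -/
structure IsFreeFin (p : ℕ) {X F : Type} [Group F] [TopologicalSpace F] [IsTopologicalGroup F]
    (i : X → F) : Prop where
  proP : IsProP p F
  conv : ConvOne i
  dense : Dense (Subgroup.closure (Set.range i) : Set F)
  lift : ∀ (P : Type) [Group P] [Finite P] [TopologicalSpace P] [DiscreteTopology P],
    IsPGroup p P → ∀ f : X → P, {x | f x ≠ 1}.Finite →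
      ∃ φ : F →* P, Continuous φ ∧ ∀ x, φ (i x) = f x

/-- A continuous character `G → ZMod p`. -/
structure IsChar (p : ℕ) {G : Type} [Group G] [TopologicalSpace G] (χ : G → ZMod p) : Prop where
  lc : IsLocallyConstant χ
  mul : ∀ g h, χ (g * h) = χ g + χ h

/-- A continuous homomorphism `R → ZMod p` on a normal subgroup `R` of `F` that is invariant
under conjugation by elements of `F`. -/
structure IsInv (p : ℕ) {F : Type} [Group F] [TopologicalSpace F] (R : Subgroup F)
    (θ : R → ZMod p) : Prop where
  lc : IsLocallyConstant θ
  mul : ∀ a b, θ (a * b) = θ a + θ b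
  inv : ∀ (g : F) (a b : R), (b : F) = g * a * g⁻¹ → θ b = θ a

end Pool.Agent.MP_6fb7ad_al
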