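import Pool.Agent.MP_6fb7ad_al.Z

/-!
# MP_6fb7ad_al: one-relator open subgroups reached through liftable characters

If `U` is reached from the pro-`p` group `G` by a chain of subgroups, each the kernel of a
continuous character to `ℤ / p` of the preceding one that lifts to a surjective character to
`ℤ / p ^ 2`, and `U` is a pro-`p` group with a single defining relation, then so is `G`.
-/

set_option autoImplicit false

namespace Pool.Agent.MP_6fb7ad_al.LiftChain

open Pool.Agent.MP_6fb7ad_al

/-- `IsProP`: pro-`p` group. `OneRelator`: pro-`p` group with a single defining relation.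
`LiftStep p V U`: `U` is the kernel of the composite of a continuous surjective homomorphism
`V → ℤ / p ^ 2` with `ℤ / p ^ 2 → ℤ / p`. -/
theorem result (p : ℕ) [Fact p.Prime] (G : Type) [Group G] [TopologicalSpace G]
    [IsTopologicalGroup G] (hG : IsProP p G) (U : Subgroup G)
    (hU : Relation.ReflTransGen (LiftStep p) ⊤ U) (h : OneRelator p U) : OneRelator p G :=
  main hG U hU h

end Pool.Agent.MP_6fb7ad_al.LiftChain
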