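import Pool.Agent.MP_6fb7ad_al.A3
import Pool.Agent.MP_6fb7ad_al.D3

/-!
# MP_6fb7ad_al: the main theorem
-/

set_option autoImplicit false

namespace Pool.Agent.MP_6fb7ad_al

variable {p : ℕ} [Fact p.Prime] {G : Type} [Group G] [TopologicalSpace G] [IsTopologicalGroup G]

theorem rank_top : Module.rank (ZMod p) (H2 p G) ≤
    Module.rank (ZMod p) (H2 p (⊤ : Subgroup G)) := by
  have hc1 : Continuous (Subgroup.topEquiv (G := G)).toMonoidHom := continuous_subtype_val
  have hc2 : Continuous (Subgroup.topEquiv (G := G)).symm.toMonoidHom :=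
    Continuous.subtype_mk continuous_id _
  refine LinearMap.rank_le_of_injective
    (pull (p := p) (Subgroup.topEquiv (G := G)).toMonoidHom hc1) ?_
  refine Function.LeftInverse.injective
    (g := pull (p := p) (Subgroup.topEquiv (G := G)).symm.toMonoidHom hc2) ?_
  intro x
  rw [pull_pull]
  exact pull_id _ _ _ fun g => rfl

theorem main (hG : IsProP p G) (U : Subgroup G)
    (hU : Relation.ReflTransGen (LiftStep p) ⊤ U) (h : OneRelator p U) : OneRelator p G := by
  have := hG.t2
  exact oneRelator_of_rank_le hG (rank_top.trans ((rank_chain hU).trans (rank_le_one h)))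

end Pool.Agent.MP_6fb7ad_al
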